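import Pool.Agent.GCR.Defs

/-!
# GCR-Unf: uniform partitions are regular in our sense

PLAN. `Q.IsUniform G ε` says that the number of the pairs in `Q.parts.offDiag` which are not `G.IsUniform ε` is at most `(K * (K - 1)) * ε ≤ ε K ^ 2`. A uniform pair satisfies `GCP.Cut G U V ε (GCP.dn G U V)`: this is the private theorem `reg_cut`
of `Pool/Agent/GCP/Reg.lean` (with `reg_dn_eq`, `reg_edg_le`, ...): copy it. So the set in `Reg` is contained in `(Q.parts.offDiag).filter (¬ G.IsUniform ε)` (`nonUniforms`).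
-/

set_option autoImplicit false

open Finset

namespace GCR

open Classical in
private theorem unf_dn_eq {n : ℕ} (G : SimpleGraph (Fin n)) (U V : Finset (Fin n)) :
    ((G.edgeDensity U V : ℚ) : ℝ) = GCP.dn G U V := by
  unfold GCP.dn GCP.edg
  rw [SimpleGraph.edgeDensity_def]
  push_cast
  simp only [SimpleGraph.interedges, Rel.interedges]

private theorem unf_edg_le {n : ℕ} (G : SimpleGraph (Fin n)) (X Y : Finset (Fin n)) :
    (GCP.edg G X Y : ℝ) ≤ X.card * Y.card := by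
  classical
  have h : GCP.edg G X Y ≤ X.card * Y.card := by
    unfold GCP.edg
    exact (card_filter_le _ _).trans (by rw [card_product])
  exact_mod_cast h

private theorem unf_dn_mul {n : ℕ} (G : SimpleGraph (Fin n)) (X Y : Finset (Fin n)) :
    (GCP.edg G X Y : ℝ) = GCP.dn G X Y * (X.card * Y.card) := by
  unfold GCP.dn
  by_cases h : (X.card : ℝ) * Y.card = 0
  · have h1 := unf_edg_le G X Y
    have h2 : (0 : ℝ) ≤ (GCP.edg G X Y : ℝ) := Nat.cast_nonneg _
    rw [h] at h1 ⊢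
    linarith
  · rw [div_mul_cancel₀ _ h]

private theorem unf_dn_nonneg {n : ℕ} (G : SimpleGraph (Fin n)) (X Y : Finset (Fin n)) :
    0 ≤ GCP.dn G X Y := by
  unfold GCP.dn
  positivity

private theorem unf_dn_le_one {n : ℕ} (G : SimpleGraph (Fin n)) (X Y : Finset (Fin n)) :
    GCP.dn G X Y ≤ 1 := by
  unfold GCP.dn
  exact div_le_one_of_le₀ (unf_edg_le G X Y) (by positivity)

open Classical in
private theorem unf_cut {n : ℕ} (G : SimpleGraph (Fin n)) (ε : ℝ) (hε : 0 < ε)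
    (U V : Finset (Fin n)) (h : G.IsUniform ε U V) : GCP.Cut G U V ε (GCP.dn G U V) := by
  intro X hX Y hY
  have hXU : (X.card : ℝ) ≤ U.card := by exact_mod_cast card_le_card hX
  have hYV : (Y.card : ℝ) ≤ V.card := by exact_mod_cast card_le_card hY
  have hX0 : (0 : ℝ) ≤ X.card := Nat.cast_nonneg _
  have hY0 : (0 : ℝ) ≤ Y.card := Nat.cast_nonneg _
  have hU0 : (0 : ℝ) ≤ U.card := Nat.cast_nonneg _
  have hV0 : (0 : ℝ) ≤ V.card := Nat.cast_nonneg _
  have hXY0 : (0 : ℝ) ≤ X.card * Y.card := mul_nonneg hX0 hY0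
  have hXYUV : (X.card : ℝ) * Y.card ≤ U.card * V.card := mul_le_mul hXU hYV hY0 hU0
  -- the rough bound
  have hrough : |(GCP.edg G X Y : ℝ) - GCP.dn G U V * (X.card * Y.card)| ≤ X.card * Y.card := by
    have h1 := unf_edg_le G X Y
    have h0 : (0 : ℝ) ≤ (GCP.edg G X Y : ℝ) := Nat.cast_nonneg _
    have h2 : 0 ≤ GCP.dn G U V * (X.card * Y.card) := mul_nonneg (unf_dn_nonneg G U V) hXY0
    have h3 : GCP.dn G U V * (X.card * Y.card) ≤ 1 * (X.card * Y.card) :=
      mul_le_mul_of_nonneg_right (unf_dn_le_one G U V) hXY0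
    rw [abs_le]
    constructor
    · linarith
    · linarith
  by_cases hx : (U.card : ℝ) * ε ≤ X.card
  · by_cases hy : (V.card : ℝ) * ε ≤ Y.card
    · have h2 := h hX hY hx hy
      rw [unf_dn_eq, unf_dn_eq] at h2
      rw [unf_dn_mul G X Y, ← sub_mul, abs_mul, abs_of_nonneg hXY0]
      exact mul_le_mul h2.le hXYUV hXY0 hε.le
    · push Not at hy
      refine hrough.trans ?_
      calc (X.card : ℝ) * Y.card ≤ U.card * (V.card * ε) := mul_le_mul hXU hy.le hY0 hU0
        _ = ε * (U.card * V.card) := by ring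
  · push Not at hx
    refine hrough.trans ?_
    calc (X.card : ℝ) * Y.card ≤ (U.card * ε) * V.card := mul_le_mul hx.le hYV hY0
          (mul_nonneg hU0 hε.le)
      _ = ε * (U.card * V.card) := by ring

open Classical in
theorem unf {n : ℕ} (G : SimpleGraph (Fin n)) (ε : ℝ) (hε : 0 < ε)
    (Q : Finpartition (univ : Finset (Fin n))) (h : Q.IsUniform G ε) : Reg G ε Q := by
  unfold Reg
  have hsub : ((Q.parts ×ˢ Q.parts).filter
      (fun q => q.1 ≠ q.2 ∧ ¬ GCP.Cut G q.1 q.2 ε (GCP.dn G q.1 q.2))) ⊆ Q.nonUniforms G ε := by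
    rintro ⟨U, V⟩ hq
    rw [mem_filter, mem_product] at hq
    obtain ⟨⟨hU, hV⟩, hne, hc⟩ := hq
    rw [Finpartition.mk_mem_nonUniforms]
    exact ⟨hU, hV, hne, fun hu => hc (unf_cut G ε hε U V hu)⟩
  have h2 : ((Q.nonUniforms G ε).card : ℝ) ≤
      ((Q.parts.card * (Q.parts.card - 1) : ℕ) : ℝ) * ε := h
  have h4 : ((Q.parts.card * (Q.parts.card - 1) : ℕ) : ℝ) ≤ (Q.parts.card : ℝ) ^ 2 := by
    have h5 : Q.parts.card * (Q.parts.card - 1) ≤ Q.parts.card ^ 2 := by
      rw [sq]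
      exact Nat.mul_le_mul_left _ (Nat.sub_le _ _)
    exact_mod_cast h5
  have h1 : (((Q.parts ×ˢ Q.parts).filter
      (fun q => q.1 ≠ q.2 ∧ ¬ GCP.Cut G q.1 q.2 ε (GCP.dn G q.1 q.2))).card : ℝ) ≤
      ((Q.nonUniforms G ε).card : ℝ) := by
    exact_mod_cast card_le_card hsub
  calc _ ≤ _ := h1
    _ ≤ _ := h2
    _ ≤ (Q.parts.card : ℝ) ^ 2 * ε := mul_le_mul_of_nonneg_right h4 hε.le
    _ = ε * (Q.parts.card : ℝ) ^ 2 := by ring

end GCR
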