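import Pool.Agent.GCR.Rfn
import Pool.Agent.GCR.Unf

/-!
# GCR-Chn: a chain of refining regular partitions

Induction on the length of the chain, with `rfn` and `unf`; after the last index the chain is constant.
-/

set_option autoImplicit false

open Finset

namespace GCR

private theorem chn_min (f : ℕ → ℝ) (hf : ∀ k, 0 < f k) (m : ℕ) : ∃ ε : ℝ, 0 < ε ∧ ∀ k ≤ m, ε ≤ f k := by
  induction m with
  | zero =>
    refine ⟨f 0, hf 0, fun k hk => ?_⟩
    rw [Nat.le_zero.1 hk]
  | succ m ih =>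
    obtain ⟨ε, hε, h⟩ := ih
    refine ⟨min ε (f (m + 1)), lt_min hε (hf _), fun k hk => ?_⟩
    rcases Nat.lt_or_ge m k with h1 | h1
    · have h2 : k = m + 1 := by omega
      rw [h2]
      exact min_le_right _ _
    · exact (min_le_left _ _).trans (h k h1)

private theorem chn_cut {n : ℕ} {G : SimpleGraph (Fin n)} {U V : Finset (Fin n)} {ε ε' d : ℝ} (h : ε ≤ ε')
    (hc : GCP.Cut G U V ε d) : GCP.Cut G U V ε' d := by
  intro X hX Y hY
  refine (hc X hX Y hY).trans ?_
  gcongr

private theorem chn_reg {n : ℕ} {G : SimpleGraph (Fin n)} {ε ε' : ℝ} (h : ε ≤ ε')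
    {Q : Finpartition (univ : Finset (Fin n))} (hQ : Reg G ε Q) : Reg G ε' Q := by
  classical
  unfold Reg at hQ ⊢
  have h1 : ε * (Q.parts.card : ℝ) ^ 2 ≤ ε' * (Q.parts.card : ℝ) ^ 2 :=
    mul_le_mul_of_nonneg_right h (by positivity)
  refine le_trans ?_ (hQ.trans h1)
  refine Nat.cast_le.2 (Finset.card_le_card fun q hq => ?_)
  rw [Finset.mem_filter] at hq ⊢
  exact ⟨hq.1, hq.2.1, fun hc => hq.2.2 (chn_cut h hc)⟩

private theorem chn_ind (f : ℕ → ℝ) (hf : ∀ k, 0 < f k) (l : ℕ) (hl : 0 < l) (J : ℕ) : ∃ M : ℕ, 0 < M ∧ ∀ n ≥ M,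
    ∀ G : SimpleGraph (Fin n), ∃ P : ℕ → Finpartition (univ : Finset (Fin n)),
      (∀ j, (P j).IsEquipartition) ∧ (∀ j, P (j + 1) ≤ P j) ∧ (∀ j ≤ J, (P j).parts.card ≤ M) ∧
      (∀ j, l ≤ (P j).parts.card) ∧ ∀ j < J, Reg G (f (P j).parts.card) (P (j + 1)) := by
  classical
  induction J with
  | zero =>
    refine ⟨l, hl, fun n hn G => ?_⟩
    obtain ⟨P, h1, h2⟩ := Finpartition.exists_equipartition_card_eq (univ : Finset (Fin n)) hl.ne'
      (by rw [Finset.card_univ, Fintype.card_fin]; exact hn)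
    exact ⟨fun _ => P, fun _ => h1, fun _ => le_rfl, fun _ _ => h2.le, fun _ => h2.ge,
      fun j hj => absurd hj (Nat.not_lt_zero j)⟩
  | succ J ih =>
    obtain ⟨M, hM, h⟩ := ih
    obtain ⟨ε, hε, hεf⟩ := chn_min f hf M
    obtain ⟨M', hM', h'⟩ := rfn ε hε M
    refine ⟨max M M', lt_of_lt_of_le hM (le_max_left _ _), fun n hn G => ?_⟩
    obtain ⟨P, p1, p2, p3, p4, p5⟩ := h n ((le_max_left _ _).trans hn) G
    obtain ⟨Q, q1, q2, q3, q4⟩ := h' n ((le_max_right _ _).trans hn) G (P J) (p1 J) (p3 J le_rfl)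
    have hr : Reg G (f (P J).parts.card) Q := chn_reg (hεf _ (p3 J le_rfl)) (unf G ε hε Q q4)
    refine ⟨fun j => if j ≤ J then P j else Q, fun j => ?_, fun j => ?_, fun j hj => ?_, fun j => ?_,
      fun j hj => ?_⟩
    · by_cases h1 : j ≤ J
      · simp only [if_pos h1]
        exact p1 j
      · simp only [if_neg h1]
        exact q2
    · by_cases h1 : j + 1 ≤ J
      · have h2 : j ≤ J := by omega
        simp only [if_pos h1, if_pos h2]
        exact p2 j
      · by_cases h2 : j ≤ J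
        · have h3 : j = J := by omega
          simp only [if_neg h1, if_pos h2]
          rw [h3]
          exact q1
        · simp only [if_neg h1, if_neg h2]
          exact le_rfl
    · by_cases h1 : j ≤ J
      · simp only [if_pos h1]
        exact (p3 j h1).trans (le_max_left _ _)
      · simp only [if_neg h1]
        exact q3.trans (le_max_right _ _)
    · by_cases h1 : j ≤ J
      · simp only [if_pos h1]
        exact p4 j
      · simp only [if_neg h1]
        exact (p4 J).trans (Finpartition.card_mono q1)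
    · by_cases h1 : j + 1 ≤ J
      · have h2 : j ≤ J := by omega
        simp only [if_pos h1, if_pos h2]
        exact p5 j (by omega)
      · have h3 : j = J := by omega
        subst h3
        simp only [if_neg h1, if_pos le_rfl]
        exact hr

theorem chain (f : ℕ → ℝ) (hf : ∀ k, 0 < f k) (l : ℕ) (hl : 0 < l) (J : ℕ) : ∃ M : ℕ, 0 < M ∧ ∀ n ≥ M,
    ∀ G : SimpleGraph (Fin n), ∃ P : ℕ → Finpartition (univ : Finset (Fin n)),
      (∀ j, (P j).IsEquipartition) ∧ (∀ j, P (j + 1) ≤ P j) ∧ (∀ j ≤ J, (P j).parts.card ≤ M) ∧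
      (∀ j, l ≤ (P j).parts.card) ∧ ∀ j < J, Reg G (f (P j).parts.card) (P (j + 1)) :=
  chn_ind f hf l hl J

end GCR
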