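import Pool.Agent.GCP.Reg

/-!
# Project GCR (MP_2c4812_co): definitions

THEOREM: for every function `γ : (0, 1] → (0, 1]` and every `ε > 0` there are `σ0 > 0` and `n0` such that every graph on `n ≥ n0` vertices in which
for all `σ ≥ σ0` any two disjoint sets of at least `σ n` vertices have density in `[γ σ, 1 - γ σ]` satisfies `mr_+(G) + mr_+(Gᶜ) ≤ (1 + ε) n`
(the graph complement conjecture, asymptotically, for all graphs without homogeneous pairs of linear size).
-/

set_option autoImplicit false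

open Finset

namespace GCR

/-- `G` has no holes: disjoint sets of at least `σ n` vertices (`σ ≥ σ0`) have density at least `γ σ` -/
def NoHole {n : ℕ} (G : SimpleGraph (Fin n)) (γ : ℝ → ℝ) (σ0 : ℝ) : Prop :=
  ∀ σ : ℝ, σ0 ≤ σ → ∀ X Y : Finset (Fin n), Disjoint X Y → σ * n ≤ X.card → σ * n ≤ Y.card →
    γ σ * (X.card * Y.card) ≤ GCP.edg G X Y

/-- the density of `T` in `A` -/
noncomputable def rd {n : ℕ} (A T : Finset (Fin n)) : ℝ := ((A ∩ T).card : ℝ) / A.card

open Classical in
/-- all but `ε K ^ 2` of the pairs of parts are regular (`K` the number of parts) -/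
def Reg {n : ℕ} (G : SimpleGraph (Fin n)) (ε : ℝ) (Q : Finpartition (univ : Finset (Fin n))) : Prop :=
  (((Q.parts ×ˢ Q.parts).filter
    (fun q => q.1 ≠ q.2 ∧ ¬ GCP.Cut G q.1 q.2 ε (GCP.dn G q.1 q.2))).card : ℝ) ≤ ε * Q.parts.card ^ 2

end GCR
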