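import Pool.Agent.GCR.Defs

/-!
# GCR-Eng: the energy of the sets stabilises

For a partition `P` put `q P T = ∑ c ∈ P.parts, ((c ∩ T).card : ℝ) ^ 2 / c.card`. `eng_step`: for `Q ≤ P` the sum of the
`|A| (rd A T - rd c T) ^ 2` is `q Q T - q P T`. As `0 ≤ q P T ≤ n`, one of the `J` steps is cheap.
-/

set_option autoImplicit false

open Finset

namespace GCR

/-- energy of the set `T`. -/
private noncomputable def engq {n : ℕ} (P : Finpartition (univ : Finset (Fin n))) (T : Finset (Fin n)) : ℝ :=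
  ∑ c ∈ P.parts, ((c ∩ T).card : ℝ) ^ 2 / c.card

private theorem engq_nonneg {n : ℕ} (P : Finpartition (univ : Finset (Fin n))) (T : Finset (Fin n)) :
    0 ≤ engq P T := Finset.sum_nonneg fun c _ => by positivity

private theorem engq_le {n : ℕ} (P : Finpartition (univ : Finset (Fin n))) (T : Finset (Fin n)) :
    engq P T ≤ n := by
  have h1 : ∑ c ∈ P.parts, (c.card : ℝ) = n := by
    have h2 := P.sum_card_parts
    rw [Finset.card_univ, Fintype.card_fin] at h2
    exact_mod_cast h2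
  rw [← h1]
  refine Finset.sum_le_sum fun c hc => ?_
  have h2 : ((c ∩ T).card : ℝ) ≤ c.card := by
    exact_mod_cast Finset.card_le_card Finset.inter_subset_left
  have h3 : (0 : ℝ) < c.card := by
    have := Finset.card_pos.2 (P.nonempty_of_mem_parts hc)
    exact_mod_cast this
  rw [div_le_iff₀ h3]
  have h4 : (0 : ℝ) ≤ ((c ∩ T).card : ℝ) := Nat.cast_nonneg _
  nlinarith

open Classical in
/-- the parts of a refinement inside a part `c` partition `c`. -/
private theorem eng_inter {n : ℕ} {Q P : Finpartition (univ : Finset (Fin n))} (hQ : Q ≤ P)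
    {c : Finset (Fin n)} (hc : c ∈ P.parts) (T : Finset (Fin n)) :
    ∑ A ∈ Q.parts.filter (fun A => A ⊆ c), ((A ∩ T).card : ℝ) = ((c ∩ T).card : ℝ) := by
  have h1 : c ∩ T = (Q.parts.filter (fun A => A ⊆ c)).biUnion fun A => A ∩ T := by
    ext x
    simp only [Finset.mem_inter, Finset.mem_biUnion, Finset.mem_filter]
    constructor
    · rintro ⟨hx, hT⟩
      obtain ⟨A, hA, hxA⟩ := Q.exists_mem (Finset.mem_univ x)
      obtain ⟨c', hc', hAc'⟩ := hQ hA
      have h2 : c' = c := P.eq_of_mem_parts hc' hc (hAc' hxA) hx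
      exact ⟨A, ⟨hA, h2 ▸ hAc'⟩, hxA, hT⟩
    · rintro ⟨A, ⟨_, hAc⟩, hxA, hT⟩
      exact ⟨hAc hxA, hT⟩
  have h2 : (c ∩ T).card = ∑ A ∈ Q.parts.filter (fun A => A ⊆ c), (A ∩ T).card := by
    rw [h1]
    refine Finset.card_biUnion fun A hA B hB hAB => ?_
    have h3 : Disjoint A B := Q.disjoint (Finset.mem_coe.2 (Finset.mem_filter.1 hA).1)
      (Finset.mem_coe.2 (Finset.mem_filter.1 hB).1) hAB
    exact h3.mono Finset.inter_subset_left Finset.inter_subset_left
  rw [h2]
  push_cast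
  rfl

open Classical in
private theorem eng_fiber {n : ℕ} {Q P : Finpartition (univ : Finset (Fin n))} (hQ : Q ≤ P)
    (f : Finset (Fin n) → ℝ) :
    ∑ c ∈ P.parts, ∑ A ∈ Q.parts.filter (fun A => A ⊆ c), f A = ∑ A ∈ Q.parts, f A := by
  simp only [Finset.sum_filter]
  rw [Finset.sum_comm]
  refine Finset.sum_congr rfl fun A hA => ?_
  obtain ⟨c, hc, hAc⟩ := hQ hA
  obtain ⟨x, hx⟩ := Q.nonempty_of_mem_parts hA
  rw [Finset.sum_eq_single_of_mem c hc, if_pos hAc]
  intro c' hc' hne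
  rw [if_neg]
  intro h
  exact hne (P.eq_of_mem_parts hc' hc (h hx) (hAc hx))

open Classical in
private theorem eng_step {n : ℕ} {Q P : Finpartition (univ : Finset (Fin n))} (hQ : Q ≤ P) (T : Finset (Fin n)) :
    ∑ c ∈ P.parts, ∑ A ∈ Q.parts.filter (fun A => A ⊆ c), (A.card : ℝ) * (rd A T - rd c T) ^ 2 =
      engq Q T - engq P T := by
  unfold engq
  rw [← eng_fiber hQ (fun A => ((A ∩ T).card : ℝ) ^ 2 / A.card), ← Finset.sum_sub_distrib]
  refine Finset.sum_congr rfl fun c hc => ?_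
  have hc0 : (0 : ℝ) < c.card := by
    have := Finset.card_pos.2 (P.nonempty_of_mem_parts hc)
    exact_mod_cast this
  have h1 : ∀ A ∈ Q.parts.filter (fun A => A ⊆ c), (A.card : ℝ) * (rd A T - rd c T) ^ 2 =
      ((A ∩ T).card : ℝ) ^ 2 / A.card - 2 * rd c T * ((A ∩ T).card : ℝ) + (rd c T) ^ 2 * ((A ∩ univ).card : ℝ) := by
    intro A hA
    have hA0 : (0 : ℝ) < A.card := by
      have := Finset.card_pos.2 (Q.nonempty_of_mem_parts (Finset.mem_filter.1 hA).1)
      exact_mod_cast this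
    rw [Finset.inter_univ]
    unfold rd
    field_simp
    ring
  rw [Finset.sum_congr rfl h1, Finset.sum_add_distrib, Finset.sum_sub_distrib, ← Finset.mul_sum, ← Finset.mul_sum,
    eng_inter hQ hc T, eng_inter hQ hc univ, Finset.inter_univ]
  unfold rd
  field_simp
  ring

open Classical in
theorem energy {n J : ℕ} (hJ : 0 < J) (P : ℕ → Finpartition (univ : Finset (Fin n)))
    (hP : ∀ j, P (j + 1) ≤ P j) (𝓣 : Finset (Finset (Fin n))) (w : Finset (Fin n) → ℝ)
    (hw : ∀ T, 0 ≤ w T) :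
    ∃ j < J, ∑ T ∈ 𝓣, w T * ∑ c ∈ (P j).parts, ∑ A ∈ (P (j + 1)).parts.filter (fun A => A ⊆ c),
      (A.card : ℝ) * (rd A T - rd c T) ^ 2 ≤ n / J * ∑ T ∈ 𝓣, w T := by
  by_contra hcon
  push Not at hcon
  have hJ' : (0 : ℝ) < J := by exact_mod_cast hJ
  have h1 : ∑ j ∈ Finset.range J, ((n : ℝ) / J * ∑ T ∈ 𝓣, w T) <
      ∑ j ∈ Finset.range J, ∑ T ∈ 𝓣, w T * (engq (P (j + 1)) T - engq (P j) T) := by
    refine Finset.sum_lt_sum_of_nonempty (Finset.nonempty_range_iff.2 hJ.ne') fun j hj => ?_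
    have h2 := hcon j (Finset.mem_range.1 hj)
    simp only [eng_step (hP j)] at h2
    exact h2
  rw [Finset.sum_const, Finset.card_range, nsmul_eq_mul, Finset.sum_comm] at h1
  have h3 : ∀ T ∈ 𝓣, ∑ j ∈ Finset.range J, w T * (engq (P (j + 1)) T - engq (P j) T) ≤ w T * n := by
    intro T _
    rw [← Finset.mul_sum, Finset.sum_range_sub (fun j => engq (P j) T)]
    refine mul_le_mul_of_nonneg_left ?_ (hw T)
    have := engq_nonneg (P 0) T
    have := engq_le (P J) T
    linarith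
  have h4 := h1.trans_le (Finset.sum_le_sum h3)
  rw [← Finset.sum_mul] at h4
  have h5 : (J : ℝ) * ((n : ℝ) / J * ∑ T ∈ 𝓣, w T) = (∑ T ∈ 𝓣, w T) * n := by
    field_simp
  rw [h5] at h4
  exact lt_irrefl _ h4

end GCR
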