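import Pool.Agent.GCR.GrdS

/-!
# GCR-Grd: greedy choice of pairwise regular and dense subcells

Induction on the number of families: `step` chooses a set `A` of the first family such that in every other family the sets which
are in good position to `A` still cover a positive proportion; the induction hypothesis is applied to these subfamilies.
-/

set_option autoImplicit false

open Finset

namespace GCR

private theorem grd_mono {n : ℕ} {G : SimpleGraph (Fin n)} {ε η η' : ℝ} {U V : Finset (Fin n)}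
    (h : ¬ GCP.BadP G ε η U V) (hη : η' ≤ η) : ¬ GCP.BadP G ε η' U V := by
  rintro (h1 | h1 | h1)
  · exact h (Or.inl h1)
  · exact h (Or.inr (Or.inl h1))
  · exact h (Or.inr (Or.inr (lt_of_lt_of_le h1 hη)))

theorem greedy (γ : ℝ → ℝ) (hγ : ∀ σ, 0 < σ → 0 < γ σ) : ∀ (N : ℕ) (β : ℝ), 0 < β →
    ∃ σ0 ε0 g : ℝ, 0 < σ0 ∧ 0 < ε0 ∧ 0 < g ∧ g ≤ 1 ∧ ∀ n : ℕ, 0 < n →
      ∀ G : SimpleGraph (Fin n), NoHole G γ σ0 → ∀ ε : ℝ, 0 ≤ ε → ε ≤ ε0 →
      ∀ Q : Finpartition (univ : Finset (Fin n)), Q.IsEquipartition → Reg G ε Q →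
      ∀ 𝓑 : Fin N → Finset (Finset (Fin n)), (∀ i, 𝓑 i ⊆ Q.parts) →
        (∀ i j, i ≠ j → Disjoint (𝓑 i) (𝓑 j)) → (∀ i, β * n ≤ ∑ A ∈ 𝓑 i, (A.card : ℝ)) →
        ∃ a : Fin N → Finset (Fin n), (∀ i, a i ∈ 𝓑 i) ∧
          ∀ i j, i < j → ¬ GCP.BadP G ε g (a i) (a j) := by
  classical
  intro N
  induction N with
  | zero =>
    intro β _
    exact ⟨1, 1, 1, one_pos, one_pos, one_pos, le_rfl, fun n _ G _ ε _ _ Q _ _ 𝓑 _ _ _ =>
      ⟨fun i => i.elim0, fun i => i.elim0, fun i => i.elim0⟩⟩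
  | succ N ih =>
    intro β hβ
    obtain ⟨β1, hβ1⟩ : ∃ x : ℝ, x = min β 1 := ⟨_, rfl⟩
    have hβ10 : 0 < β1 := by rw [hβ1]; exact lt_min hβ one_pos
    have hβ1β : β1 ≤ β := by rw [hβ1]; exact min_le_left _ _
    have hN0 : (0 : ℝ) ≤ N := Nat.cast_nonneg N
    obtain ⟨σ, hσ⟩ : ∃ x : ℝ, x = β1 / (2 * (N + 1)) := ⟨_, rfl⟩
    have hσ0 : 0 < σ := by rw [hσ]; positivity
    have hσe : σ * (2 * (N + 1)) = β1 := by
      rw [hσ]
      field_simp
    have hσβ : σ ≤ β1 := by nlinarith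
    have hNσ : (N : ℝ) * σ < β1 := by nlinarith
    obtain ⟨γ1, hγ1⟩ : ∃ x : ℝ, x = min (γ σ) 1 := ⟨_, rfl⟩
    have hγ10 : 0 < γ1 := by rw [hγ1]; exact lt_min (hγ σ hσ0) one_pos
    have hγ1γ : γ1 ≤ γ σ := by rw [hγ1]; exact min_le_left _ _
    obtain ⟨σ0', ε0', g', h1, h2, h3, h4, h5⟩ := ih (γ1 * β1 / 8) (by positivity)
    refine ⟨min σ σ0', min ε0' (γ1 * σ * β1 / 8), min g' (γ1 / 4), lt_min hσ0 h1,
      lt_min h2 (by positivity), lt_min h3 (by positivity), (min_le_left _ _).trans h4, ?_⟩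
    intro n hn G hG ε hε0 hε Q hQ hreg 𝓑 hQ𝓑 hdis hβ𝓑
    have hn0 : (0 : ℝ) ≤ n := Nat.cast_nonneg n
    have hεa : ε ≤ ε0' := hε.trans (min_le_left _ _)
    have hεb : ε ≤ γ1 * σ * β1 / 8 := hε.trans (min_le_right _ _)
    obtain ⟨A, hA, hAi⟩ := step hn G γ (min σ σ0') σ β1 ε γ1 hσ0 (min_le_left _ _) hσβ hNσ hγ10
      hγ1γ hε0 (by linarith) hG Q hQ hreg (𝓑 0) (hQ𝓑 0)
      ((mul_le_mul_of_nonneg_right hβ1β hn0).trans (hβ𝓑 0)) (fun i : Fin N => 𝓑 i.succ)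
      (fun i => hQ𝓑 i.succ) (fun i => hdis 0 i.succ (Fin.succ_ne_zero i).symm)
      (fun i => (mul_le_mul_of_nonneg_right hβ1β hn0).trans (hβ𝓑 i.succ))
    obtain ⟨a, ha, haj⟩ := h5 n hn G (fun τ hτ => hG τ ((min_le_right _ _).trans hτ)) ε hε0 hεa Q
      hQ hreg
      (fun i => (𝓑 i.succ).filter (fun A' => ¬ GCP.BadP G ε (γ1 / 4) A A'))
      (fun i => (filter_subset _ _).trans (hQ𝓑 i.succ))
      (fun i j hij => ((hdis i.succ j.succ fun h => hij (Fin.succ_injective _ h)).mono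
        (filter_subset _ _) (filter_subset _ _)))
      (fun i => hAi i)
    refine ⟨Fin.cons A a, fun i => ?_, fun i j hij => ?_⟩
    · refine Fin.cases ?_ (fun i => ?_) i
      · rw [Fin.cons_zero]
        exact hA
      · rw [Fin.cons_succ]
        exact (mem_filter.1 (ha i)).1
    · have hj0 : j ≠ 0 := fun h => by
        rw [h] at hij
        exact absurd hij (Fin.not_lt_zero i)
      obtain ⟨j, rfl⟩ := Fin.exists_succ_eq.2 hj0
      revert hij
      refine Fin.cases (fun _ => ?_) (fun i => ?_) i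
      · rw [Fin.cons_zero, Fin.cons_succ]
        exact grd_mono (mem_filter.1 (ha j)).2 (min_le_right _ _)
      · intro hij
        rw [Fin.cons_succ, Fin.cons_succ]
        exact grd_mono (haj i j (Fin.succ_lt_succ_iff.1 hij)) (min_le_left _ _)

end GCR
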