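import Pool.Agent.GCR.Defs

/-!
# GCR-GrdS: one step of the greedy choice

The parts of `𝓑0` which have few good neighbours in `𝓑 i` have total size less than `σ n`: otherwise
their union and the union of `𝓑 i` span too few edges (`NoHole`). Hence some part of `𝓑0` has many
good neighbours in all `𝓑 i`.
-/

set_option autoImplicit false

open Finset

namespace GCR

private theorem edg_le {n : ℕ} (G : SimpleGraph (Fin n)) (X Y : Finset (Fin n)) :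
    (GCP.edg G X Y : ℝ) ≤ X.card * Y.card := by
  classical
  have h : GCP.edg G X Y ≤ X.card * Y.card := by
    unfold GCP.edg
    exact (card_filter_le _ _).trans (by rw [card_product])
  exact_mod_cast h

/-- the edges between two unions are edges between the members -/
private theorem edg_union {n : ℕ} (G : SimpleGraph (Fin n)) (𝒳 𝒴 : Finset (Finset (Fin n))) :
    (GCP.edg G (𝒳.biUnion id) (𝒴.biUnion id) : ℝ) ≤ ∑ A ∈ 𝒳, ∑ B ∈ 𝒴, (GCP.edg G A B : ℝ) := by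
  classical
  have h : GCP.edg G (𝒳.biUnion id) (𝒴.biUnion id) ≤ ∑ q ∈ 𝒳 ×ˢ 𝒴, GCP.edg G q.1 q.2 := by
    unfold GCP.edg
    refine (card_le_card ?_).trans card_biUnion_le
    rintro ⟨x, y⟩ hxy
    simp only [mem_filter, mem_product, mem_biUnion, id_eq] at hxy ⊢
    obtain ⟨⟨⟨A, hA, hx⟩, B, hB, hy⟩, hadj⟩ := hxy
    exact ⟨(A, B), ⟨hA, hB⟩, ⟨hx, hy⟩, hadj⟩
  rw [sum_product] at h
  exact_mod_cast h

private theorem card_union {n : ℕ} {Q : Finpartition (univ : Finset (Fin n))}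
    {𝒳 : Finset (Finset (Fin n))} (h : 𝒳 ⊆ Q.parts) :
    ((𝒳.biUnion id).card : ℝ) = ∑ A ∈ 𝒳, (A.card : ℝ) := by
  classical
  rw [card_biUnion]
  · push_cast
    rfl
  · intro A hA B hB hAB
    exact Q.disjoint (h hA) (h hB) hAB

private theorem disj_union {n : ℕ} {Q : Finpartition (univ : Finset (Fin n))}
    {𝒳 𝒴 : Finset (Finset (Fin n))} (h : 𝒳 ⊆ Q.parts) (h' : 𝒴 ⊆ Q.parts) (hd : Disjoint 𝒳 𝒴) :
    Disjoint (𝒳.biUnion id) (𝒴.biUnion id) := by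
  classical
  rw [disjoint_biUnion_left]
  intro A hA
  rw [disjoint_biUnion_right]
  intro B hB
  refine Q.disjoint (h hA) (h' hB) ?_
  rintro rfl
  exact disjoint_left.1 hd hA hB

/-- the parts are small -/
private theorem part_le {n : ℕ} {Q : Finpartition (univ : Finset (Fin n))} (hQ : Q.IsEquipartition)
    {A : Finset (Fin n)} (hA : A ∈ Q.parts) : (A.card : ℝ) * Q.parts.card ≤ 2 * n := by
  have hK : 0 < Q.parts.card := card_pos.2 ⟨A, hA⟩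
  have h1 := hQ.card_part_le_average_add_one hA
  have h2 : Q.parts.card ≤ n := by
    have := Q.card_parts_le_card
    rwa [card_univ, Fintype.card_fin] at this
  rw [card_univ, Fintype.card_fin] at h1
  have h3 : A.card * Q.parts.card ≤ 2 * n := by
    calc A.card * Q.parts.card ≤ (n / Q.parts.card + 1) * Q.parts.card :=
          Nat.mul_le_mul_right _ h1
      _ = n / Q.parts.card * Q.parts.card + Q.parts.card := by ring
      _ ≤ n + n := add_le_add (Nat.div_mul_le_self _ _) h2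
      _ = 2 * n := by ring
  exact_mod_cast h3

open Classical in
/-- the weight of the irregular pairs -/
private theorem irr_le {n : ℕ} {G : SimpleGraph (Fin n)} {ε : ℝ}
    {Q : Finpartition (univ : Finset (Fin n))} (hQ : Q.IsEquipartition) (hreg : Reg G ε Q)
    {𝒳 𝒴 : Finset (Finset (Fin n))} (h : 𝒳 ⊆ Q.parts) (h' : 𝒴 ⊆ Q.parts) (hne : 𝒳.Nonempty) :
    ∑ A ∈ 𝒳, ∑ B ∈ 𝒴, (if A ≠ B ∧ ¬ GCP.Cut G A B ε (GCP.dn G A B) then
      ((A.card : ℝ) * B.card) else 0) ≤ 4 * ε * n ^ 2 := by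
  have hK : 0 < Q.parts.card := card_pos.2 ⟨_, h hne.choose_spec⟩
  have hK' : (0 : ℝ) < Q.parts.card := Nat.cast_pos.2 hK
  have hpart : ∀ A ∈ Q.parts, (A.card : ℝ) ≤ 2 * n / Q.parts.card := fun A hA => by
    rw [le_div_iff₀ hK']
    exact part_le hQ hA
  have h1 : ∑ A ∈ 𝒳, ∑ B ∈ 𝒴, (if A ≠ B ∧ ¬ GCP.Cut G A B ε (GCP.dn G A B) then
      ((A.card : ℝ) * B.card) else 0) =
      ∑ q ∈ (𝒳 ×ˢ 𝒴).filter (fun q => q.1 ≠ q.2 ∧ ¬ GCP.Cut G q.1 q.2 ε (GCP.dn G q.1 q.2)),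
        ((q.1.card : ℝ) * q.2.card) := by
    rw [sum_filter, sum_product]
  rw [h1]
  calc ∑ q ∈ (𝒳 ×ˢ 𝒴).filter (fun q => q.1 ≠ q.2 ∧ ¬ GCP.Cut G q.1 q.2 ε (GCP.dn G q.1 q.2)),
        ((q.1.card : ℝ) * q.2.card)
      ≤ ∑ q ∈ (𝒳 ×ˢ 𝒴).filter (fun q => q.1 ≠ q.2 ∧ ¬ GCP.Cut G q.1 q.2 ε (GCP.dn G q.1 q.2)),
        (2 * n / Q.parts.card : ℝ) ^ 2 := by
        refine sum_le_sum fun q hq => ?_
        rw [mem_filter, mem_product] at hq
        rw [sq]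
        exact mul_le_mul (hpart _ (h hq.1.1)) (hpart _ (h' hq.1.2)) (by positivity)
          (by positivity)
    _ = (((𝒳 ×ˢ 𝒴).filter (fun q => q.1 ≠ q.2 ∧
          ¬ GCP.Cut G q.1 q.2 ε (GCP.dn G q.1 q.2))).card : ℝ) *
          (2 * n / Q.parts.card : ℝ) ^ 2 := by rw [sum_const, nsmul_eq_mul]
    _ ≤ (ε * Q.parts.card ^ 2) * (2 * n / Q.parts.card : ℝ) ^ 2 := by
        refine mul_le_mul_of_nonneg_right (le_trans ?_ hreg) (by positivity)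
        exact_mod_cast card_le_card (filter_subset_filter _ (product_subset_product h h'))
    _ = 4 * ε * n ^ 2 := by
        field_simp
        ring

open Classical in
/-- the parts with few good neighbours -/
private theorem few {n : ℕ} (hn : 0 < n) (G : SimpleGraph (Fin n)) (γ : ℝ → ℝ)
    (σ0 σ β ε γ1 : ℝ) (hσ : 0 < σ) (hσ0 : σ0 ≤ σ) (hσβ : σ ≤ β) (hγ1 : 0 < γ1)
    (hγ : γ1 ≤ γ σ) (hε : 8 * ε ≤ γ1 * σ * β) (hG : NoHole G γ σ0)
    (Q : Finpartition (univ : Finset (Fin n))) (hQ : Q.IsEquipartition) (hreg : Reg G ε Q)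
    (𝒳 : Finset (Finset (Fin n))) (h𝒳 : 𝒳 ⊆ Q.parts)
    (𝒴 : Finset (Finset (Fin n))) (h𝒴 : 𝒴 ⊆ Q.parts)
    (hdis : Disjoint 𝒳 𝒴) (h1 : β * n ≤ ∑ A ∈ 𝒴, (A.card : ℝ))
    (hfew : ∀ A ∈ 𝒳, ∑ A' ∈ 𝒴.filter (fun A' => ¬ GCP.BadP G ε (γ1 / 4) A A'), (A'.card : ℝ) <
      γ1 * β / 8 * n) : ∑ A ∈ 𝒳, (A.card : ℝ) ≤ σ * n := by
  by_contra hcon
  rw [not_le] at hcon
  have hn' : (0 : ℝ) < n := Nat.cast_pos.2 hn
  have hβ : 0 < β := lt_of_lt_of_le hσ hσβ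
  have hne : 𝒳.Nonempty := by
    rw [nonempty_iff_ne_empty]
    rintro rfl
    rw [sum_empty] at hcon
    exact absurd hcon (not_lt.2 (by positivity))
  obtain ⟨x, hx⟩ : ∃ x : ℝ, x = ∑ A ∈ 𝒳, (A.card : ℝ) := ⟨_, rfl⟩
  obtain ⟨y, hy⟩ : ∃ y : ℝ, y = ∑ A ∈ 𝒴, (A.card : ℝ) := ⟨_, rfl⟩
  rw [← hx] at hcon
  rw [← hy] at h1
  have hx0 : 0 < x := lt_trans (by positivity) hcon
  have hy0 : 0 < y := lt_of_lt_of_le (by positivity) h1
  have hcX := card_union h𝒳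
  have hcY := card_union h𝒴
  have hNH := hG σ hσ0 _ _ (disj_union h𝒳 h𝒴 hdis) (by rw [hcX, ← hx]; exact hcon.le)
    (by
      rw [hcY, ← hy]
      exact le_trans (mul_le_mul_of_nonneg_right hσβ hn'.le) h1)
  rw [hcX, hcY, ← hx, ← hy] at hNH
  have hlow : γ1 * (x * y) ≤ GCP.edg G (𝒳.biUnion id) (𝒴.biUnion id) :=
    le_trans (mul_le_mul_of_nonneg_right hγ (by positivity)) hNH
  -- the upper bound for one pair
  have hpair : ∀ A ∈ 𝒳, ∀ B ∈ 𝒴, (GCP.edg G A B : ℝ) ≤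
      (A.card : ℝ) * (if ¬ GCP.BadP G ε (γ1 / 4) A B then (B.card : ℝ) else 0) +
      γ1 / 4 * (A.card * B.card) +
      (if A ≠ B ∧ ¬ GCP.Cut G A B ε (GCP.dn G A B) then ((A.card : ℝ) * B.card) else 0) := by
    intro A hA B hB
    have hAB : A ≠ B := by
      rintro rfl
      exact disjoint_left.1 hdis hA hB
    have h0 : (0 : ℝ) ≤ (A.card : ℝ) * B.card := by positivity
    have h2 := edg_le G A B
    have h3 : 0 ≤ γ1 / 4 * ((A.card : ℝ) * B.card) := by positivity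
    have h4 : (0 : ℝ) ≤ if A ≠ B ∧ ¬ GCP.Cut G A B ε (GCP.dn G A B) then
        ((A.card : ℝ) * B.card) else 0 := by
      split_ifs
      · exact h0
      · exact le_rfl
    by_cases hb : GCP.BadP G ε (γ1 / 4) A B
    · rw [if_neg (not_not.2 hb), mul_zero, zero_add]
      rcases hb with hb | hb | hb
      · exact absurd hb hAB
      · rw [if_pos ⟨hAB, hb⟩]
        linarith
      · refine le_trans ?_ (le_add_of_nonneg_right h4)
        have hA0 : (0 : ℝ) < A.card :=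
          Nat.cast_pos.2 (Q.nonempty_of_mem_parts (h𝒳 hA)).card_pos
        have hB0 : (0 : ℝ) < B.card :=
          Nat.cast_pos.2 (Q.nonempty_of_mem_parts (h𝒴 hB)).card_pos
        unfold GCP.dn at hb
        rw [div_lt_iff₀ (by positivity)] at hb
        exact hb.le
    · rw [if_pos hb]
      linarith
  have hup : (GCP.edg G (𝒳.biUnion id) (𝒴.biUnion id) : ℝ) ≤
      γ1 / 8 * (x * y) + γ1 / 4 * (x * y) + 4 * ε * n ^ 2 := by
    refine (edg_union G 𝒳 𝒴).trans ?_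
    refine (sum_le_sum fun A hA => sum_le_sum fun B hB => hpair A hA B hB).trans ?_
    simp only [sum_add_distrib]
    refine add_le_add (add_le_add ?_ ?_) (irr_le hQ hreg h𝒳 h𝒴 hne)
    · calc ∑ A ∈ 𝒳, ∑ B ∈ 𝒴, (A.card : ℝ) *
            (if ¬ GCP.BadP G ε (γ1 / 4) A B then (B.card : ℝ) else 0)
          = ∑ A ∈ 𝒳, (A.card : ℝ) *
            ∑ B ∈ 𝒴.filter (fun A' => ¬ GCP.BadP G ε (γ1 / 4) A A'), (B.card : ℝ) := by
            refine sum_congr rfl fun A _ => ?_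
            rw [← mul_sum, sum_filter]
        _ ≤ ∑ A ∈ 𝒳, (A.card : ℝ) * (γ1 * β / 8 * n) :=
            sum_le_sum fun A hA => mul_le_mul_of_nonneg_left (hfew A hA).le (Nat.cast_nonneg _)
        _ = x * (γ1 * β / 8 * n) := by rw [← sum_mul, ← hx]
        _ = γ1 / 8 * (x * (β * n)) := by ring
        _ ≤ γ1 / 8 * (x * y) := by gcongr
    · refine le_of_eq ?_
      calc ∑ A ∈ 𝒳, ∑ B ∈ 𝒴, γ1 / 4 * ((A.card : ℝ) * B.card)
          = γ1 / 4 * ((∑ A ∈ 𝒳, (A.card : ℝ)) * ∑ B ∈ 𝒴, (B.card : ℝ)) := by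
            rw [sum_mul_sum, mul_sum]
            refine sum_congr rfl fun A _ => ?_
            rw [mul_sum]
        _ = γ1 / 4 * (x * y) := by rw [← hx, ← hy]
  have hxy : σ * n * (β * n) ≤ x * y := mul_le_mul hcon.le h1 (by positivity) hx0.le
  have h5 : 5 / 8 * γ1 * (x * y) ≤ 4 * ε * n ^ 2 := by linarith
  have h6 : 5 / 8 * γ1 * (σ * n * (β * n)) ≤ 4 * ε * n ^ 2 :=
    le_trans (mul_le_mul_of_nonneg_left hxy (by positivity)) h5
  have h7 : 8 * ε * (n : ℝ) ^ 2 ≤ γ1 * σ * β * n ^ 2 := mul_le_mul_of_nonneg_right hε (by positivity)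
  have h8 : 0 < γ1 * σ * β * (n : ℝ) ^ 2 := by positivity
  nlinarith

open Classical in
theorem step {n N : ℕ} (hn : 0 < n) (G : SimpleGraph (Fin n)) (γ : ℝ → ℝ) (σ0 σ β ε γ1 : ℝ)
    (hσ : 0 < σ) (hσ0 : σ0 ≤ σ) (hσβ : σ ≤ β) (hNσ : (N : ℝ) * σ < β) (hγ1 : 0 < γ1)
    (hγ : γ1 ≤ γ σ) (hε0 : 0 ≤ ε) (hε : 8 * ε ≤ γ1 * σ * β) (hG : NoHole G γ σ0)
    (Q : Finpartition (univ : Finset (Fin n))) (hQ : Q.IsEquipartition) (hreg : Reg G ε Q)
    (𝓑0 : Finset (Finset (Fin n))) (h𝓑0 : 𝓑0 ⊆ Q.parts) (h0 : β * n ≤ ∑ A ∈ 𝓑0, (A.card : ℝ))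
    (𝓑 : Fin N → Finset (Finset (Fin n))) (h𝓑 : ∀ i, 𝓑 i ⊆ Q.parts)
    (hdis : ∀ i, Disjoint 𝓑0 (𝓑 i)) (h1 : ∀ i, β * n ≤ ∑ A ∈ 𝓑 i, (A.card : ℝ)) :
    ∃ A ∈ 𝓑0, ∀ i, γ1 * β / 8 * n ≤
      ∑ A' ∈ (𝓑 i).filter (fun A' => ¬ GCP.BadP G ε (γ1 / 4) A A'), (A'.card : ℝ) := by
  by_contra hcon
  push Not at hcon
  have hn' : (0 : ℝ) < n := Nat.cast_pos.2 hn
  obtain ⟨X, hX⟩ : ∃ X : Fin N → Finset (Finset (Fin n)), ∀ i, X i = 𝓑0.filter (fun A =>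
      ∑ A' ∈ (𝓑 i).filter (fun A' => ¬ GCP.BadP G ε (γ1 / 4) A A'), (A'.card : ℝ) <
        γ1 * β / 8 * n) := ⟨_, fun _ => rfl⟩
  have h2 : ∀ i, ∑ A ∈ X i, (A.card : ℝ) ≤ σ * n := by
    intro i
    have hs : X i ⊆ 𝓑0 := by
      rw [hX]
      exact filter_subset _ _
    refine few hn G γ σ0 σ β ε γ1 hσ hσ0 hσβ hγ1 hγ hε hG Q hQ hreg (X i) (hs.trans h𝓑0) (𝓑 i)
      (h𝓑 i) (disjoint_of_subset_left hs (hdis i)) (h1 i) fun A hA => ?_
    rw [hX, mem_filter] at hA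
    exact hA.2
  have h3 : ∑ A ∈ 𝓑0, (A.card : ℝ) ≤ ∑ i, ∑ A ∈ X i, (A.card : ℝ) := by
    have h4 : ∑ i, ∑ A ∈ X i, (A.card : ℝ) = ∑ A ∈ 𝓑0, ∑ i, (if
        ∑ A' ∈ (𝓑 i).filter (fun A' => ¬ GCP.BadP G ε (γ1 / 4) A A'), (A'.card : ℝ) <
        γ1 * β / 8 * n then (A.card : ℝ) else 0) := by
      rw [sum_comm]
      refine sum_congr rfl fun i _ => ?_
      rw [hX, sum_filter]
    rw [h4]
    refine sum_le_sum fun A hA => ?_
    obtain ⟨i, hi⟩ := hcon A hA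
    have h5 := single_le_sum (f := fun i => (if
        ∑ A' ∈ (𝓑 i).filter (fun A' => ¬ GCP.BadP G ε (γ1 / 4) A A'), (A'.card : ℝ) <
        γ1 * β / 8 * n then (A.card : ℝ) else 0)) (s := univ) (fun j _ => by
          split_ifs
          · exact Nat.cast_nonneg _
          · exact le_rfl) (mem_univ i)
    simp only [if_pos hi] at h5
    exact h5
  have h6 : ∑ i, ∑ A ∈ X i, (A.card : ℝ) ≤ N * (σ * n) := by
    calc ∑ i, ∑ A ∈ X i, (A.card : ℝ) ≤ ∑ _i : Fin N, σ * (n : ℝ) := sum_le_sum fun i _ => h2 i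
      _ = N * (σ * n) := by rw [sum_const, card_univ, Fintype.card_fin, nsmul_eq_mul]
  have h7 : (N : ℝ) * (σ * n) < β * n := by
    rw [← mul_assoc]
    exact mul_lt_mul_of_pos_right hNσ hn'
  linarith

end GCR
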