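import Pool.Agent.GCR.Defs

/-!
# GCR-Typ: typical subcells

Two Markov inequalities for the defect of the densities of the sets `T` in the parts of the finer partition.
-/

set_option autoImplicit false

open Finset

namespace GCR

private lemma typ_size {n : ℕ} (P : Finpartition (univ : Finset (Fin n)))
    (hP : P.IsEquipartition) (c : Finset (Fin n)) (hc : c ∈ P.parts) :
    n ≤ 2 * P.parts.card * c.card ∧ P.parts.card * c.card ≤ 2 * n := by
  have hk : 0 < P.parts.card := card_pos.2 ⟨c, hc⟩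
  have hkn : P.parts.card ≤ n := by
    have := P.card_parts_le_card
    simpa using this
  have h1 := hP.average_le_card_part hc
  have h2 := hP.card_part_le_average_add_one hc
  rw [card_univ, Fintype.card_fin] at h1 h2
  have hq : 1 ≤ n / P.parts.card := (Nat.one_le_div_iff hk).2 hkn
  have h3 : n < P.parts.card * (n / P.parts.card + 1) := by
    have := Nat.lt_mul_div_succ n hk
    simpa using this
  have h4 : P.parts.card * (n / P.parts.card) ≤ n := Nat.mul_div_le n _
  constructor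
  · calc n ≤ P.parts.card * (n / P.parts.card + 1) := h3.le
      _ ≤ P.parts.card * (2 * (n / P.parts.card)) := Nat.mul_le_mul_left _ (by omega)
      _ = 2 * P.parts.card * (n / P.parts.card) := by ring
      _ ≤ 2 * P.parts.card * c.card := Nat.mul_le_mul_left _ h1
  · calc P.parts.card * c.card ≤ P.parts.card * (n / P.parts.card + 1) := Nat.mul_le_mul_left _ h2
      _ ≤ P.parts.card * (2 * (n / P.parts.card)) := Nat.mul_le_mul_left _ (by omega)
      _ = 2 * (P.parts.card * (n / P.parts.card)) := by ring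
      _ ≤ 2 * n := Nat.mul_le_mul_left _ h4

open Classical in
private lemma typ_sub {n : ℕ} (P Q : Finpartition (univ : Finset (Fin n))) (hQ : Q ≤ P)
    (c : Finset (Fin n)) (hc : c ∈ P.parts) :
    ∑ A ∈ Q.parts.filter (fun A => A ⊆ c), (A.card : ℝ) = c.card := by
  have h1 : c = (Q.parts.filter (fun A => A ⊆ c)).biUnion id := by
    ext x
    simp only [mem_biUnion, mem_filter, id]
    constructor
    · intro hx
      obtain ⟨A, hA, hxA⟩ := Q.exists_mem (mem_univ x)
      obtain ⟨c', hc', hAc'⟩ := hQ hA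
      have : c = c' := P.eq_of_mem_parts hc hc' hx (hAc' hxA)
      exact ⟨A, ⟨hA, this ▸ hAc'⟩, hxA⟩
    · rintro ⟨A, ⟨_, hA⟩, hx⟩
      exact hA hx
  have h2 : c.card = ∑ A ∈ Q.parts.filter (fun A => A ⊆ c), A.card := by
    conv_lhs => rw [h1]
    rw [card_biUnion]
    · rfl
    · intro A hA B hB hAB
      exact Q.disjoint (mem_filter.1 hA).1 (mem_filter.1 hB).1 hAB
  rw [h2]
  push_cast
  rfl

open Classical in
private lemma typ_inter {n : ℕ} (P : Finpartition (univ : Finset (Fin n))) (T : Finset (Fin n)) :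
    ∑ c ∈ P.parts, ((c ∩ T).card : ℝ) = T.card := by
  have h1 : T = P.parts.biUnion (fun c => c ∩ T) := by
    ext x
    simp only [mem_biUnion, mem_inter]
    constructor
    · intro hx
      obtain ⟨A, hA, hxA⟩ := P.exists_mem (mem_univ x)
      exact ⟨A, hA, hxA, hx⟩
    · rintro ⟨A, _, _, hx⟩
      exact hx
  have h2 : T.card = ∑ c ∈ P.parts, (c ∩ T).card := by
    conv_lhs => rw [h1]
    rw [card_biUnion]
    intro A hA B hB hAB
    exact (P.disjoint hA hB hAB).mono inter_subset_left inter_subset_left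
  rw [h2]
  push_cast
  rfl

open Classical in
/-- the Markov inequality in a cell -/
private lemma typ_mk {ι : Type*} (S : Finset ι) (m Φ : ι → ℝ) (C : ℝ) (hm : ∀ i ∈ S, 0 < m i)
    (hΦ : ∀ i ∈ S, 0 ≤ Φ i) (hC : ∑ i ∈ S, m i = C) (hC0 : 0 < C) :
    3 / 4 * C ≤ ∑ i ∈ S.filter (fun i => Φ i * C ≤ 4 * ∑ j ∈ S, m j * Φ j), m i := by
  set E := ∑ j ∈ S, m j * Φ j with hE
  have hE0 : 0 ≤ E := sum_nonneg fun i hi => mul_nonneg (hm i hi).le (hΦ i hi)
  by_contra hcon
  push Not at hcon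
  have h1 := sum_filter_add_sum_filter_not S (fun i => Φ i * C ≤ 4 * E) m
  rw [hC] at h1
  have h2 : C / 4 < ∑ i ∈ S.filter (fun i => ¬ Φ i * C ≤ 4 * E), m i := by linarith
  have hne : (S.filter (fun i => ¬ Φ i * C ≤ 4 * E)).Nonempty := by
    rw [nonempty_iff_ne_empty]
    intro h
    rw [h, sum_empty] at h2
    linarith
  have h3 : ∑ i ∈ S.filter (fun i => ¬ Φ i * C ≤ 4 * E), m i * (4 * E) <
      ∑ i ∈ S.filter (fun i => ¬ Φ i * C ≤ 4 * E), m i * (Φ i * C) := by
    refine sum_lt_sum_of_nonempty hne ?_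
    intro i hi
    rw [mem_filter, not_le] at hi
    exact mul_lt_mul_of_pos_left hi.2 (hm i hi.1)
  have h4 : ∑ i ∈ S.filter (fun i => ¬ Φ i * C ≤ 4 * E), m i * (Φ i * C) ≤ E * C := by
    rw [hE, sum_mul]
    refine (sum_le_sum_of_subset_of_nonneg (filter_subset _ _) ?_).trans (le_of_eq ?_)
    · intro i hi _
      exact mul_nonneg (hm i hi).le (mul_nonneg (hΦ i hi) hC0.le)
    · exact sum_congr rfl fun i _ => by ring
  rw [← sum_mul] at h3
  have h5 : C / 4 * (4 * E) ≤ (∑ i ∈ S.filter (fun i => ¬ Φ i * C ≤ 4 * E), m i) * (4 * E) :=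
    mul_le_mul_of_nonneg_right h2.le (by linarith)
  linarith

open Classical in
/-- many cells have a large defect -/
private lemma typ_def {n : ℕ} (hn : 0 < n) (P : Finpartition (univ : Finset (Fin n)))
    (hP : P.IsEquipartition) (e : ℝ) (he : 0 < e) (T : Finset (Fin n)) (hT : e * n ≤ T.card)
    (a : Finset (Fin n) → Finset (Fin n))
    (hb : ((P.parts.filter (fun c => e / 4 ≤ rd (a c) T)).card : ℝ) < e / 8 * P.parts.card) :
    e ^ 3 * P.parts.card / 128 ≤ ∑ c ∈ P.parts, (rd (a c) T - rd c T) ^ 2 := by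
  have hn' : (0 : ℝ) < n := by exact_mod_cast hn
  have hne : P.parts.Nonempty := by
    obtain ⟨A, hA, _⟩ := P.exists_mem (mem_univ (⟨0, hn⟩ : Fin n))
    exact ⟨A, hA⟩
  have hk : (0 : ℝ) < P.parts.card := by exact_mod_cast card_pos.2 hne
  set L := P.parts.filter (fun c => e / 2 ≤ rd c T) with hL
  have h0 : ∀ c ∈ P.parts, (0 : ℝ) < c.card := fun c hc => by
    exact_mod_cast card_pos.2 (P.nonempty_of_mem_parts hc)
  have h1 := sum_filter_add_sum_filter_not P.parts (fun c => e / 2 ≤ rd c T)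
    (fun c => ((c ∩ T).card : ℝ))
  rw [typ_inter P T] at h1
  have hs : ∑ c ∈ P.parts, (c.card : ℝ) = n := by
    have := P.sum_card_parts
    rw [card_univ, Fintype.card_fin] at this
    exact_mod_cast this
  have h2 : ∑ c ∈ P.parts.filter (fun c => ¬ e / 2 ≤ rd c T), ((c ∩ T).card : ℝ) ≤ e / 2 * n := by
    rw [← hs, mul_sum]
    refine (sum_le_sum (g := fun c => e / 2 * (c.card : ℝ)) ?_).trans
      (sum_le_sum_of_subset_of_nonneg (filter_subset _ _) ?_)
    · intro c hc
      have hc' := mem_filter.1 hc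
      have hc2 := hc'.2
      rw [not_le, rd, div_lt_iff₀ (h0 c hc'.1)] at hc2
      exact hc2.le
    · intro c hc _
      exact mul_nonneg (by linarith) (h0 c hc).le
  have h3 : ∑ c ∈ L, ((c ∩ T).card : ℝ) * P.parts.card ≤ L.card * (2 * n) := by
    rw [← nsmul_eq_mul, ← sum_const]
    refine sum_le_sum ?_
    intro c hc
    have h4 := (typ_size P hP c (mem_filter.1 hc).1).2
    have h5 : ((P.parts.card * c.card : ℕ) : ℝ) ≤ ((2 * n : ℕ) : ℝ) := by exact_mod_cast h4
    push_cast at h5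
    have h6 : ((c ∩ T).card : ℝ) ≤ c.card := by
      exact_mod_cast card_le_card inter_subset_left
    calc ((c ∩ T).card : ℝ) * P.parts.card ≤ c.card * P.parts.card :=
          mul_le_mul_of_nonneg_right h6 hk.le
      _ ≤ 2 * n := by linarith
  rw [← sum_mul] at h3
  have h4 : e / 2 * n ≤ ∑ c ∈ L, ((c ∩ T).card : ℝ) := by linarith
  have h5 : e / 4 * P.parts.card ≤ L.card := by
    have h6 : e / 2 * n * P.parts.card ≤ L.card * (2 * n) :=
      (mul_le_mul_of_nonneg_right h4 hk.le).trans h3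
    have h7 : (e / 4 * P.parts.card) * (2 * n) ≤ L.card * (2 * n) := by
      refine (le_of_eq ?_).trans h6
      ring
    exact le_of_mul_le_mul_right h7 (by linarith)
  have h6 : e / 8 * P.parts.card ≤
      ((L \ P.parts.filter (fun c => e / 4 ≤ rd (a c) T)).card : ℝ) := by
    have h7 := card_le_card_sdiff_add_card (s := L) (t := P.parts.filter (fun c => e / 4 ≤ rd (a c) T))
    have h8 : (L.card : ℝ) ≤ ((L \ P.parts.filter (fun c => e / 4 ≤ rd (a c) T)).card : ℝ) +
        ((P.parts.filter (fun c => e / 4 ≤ rd (a c) T)).card : ℝ) := by exact_mod_cast h7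
    linarith
  have h7 : ((L \ P.parts.filter (fun c => e / 4 ≤ rd (a c) T)).card : ℝ) * (e / 4) ^ 2 ≤
      ∑ c ∈ P.parts, (rd (a c) T - rd c T) ^ 2 := by
    rw [← nsmul_eq_mul, ← sum_const]
    refine (sum_le_sum (g := fun c => (rd (a c) T - rd c T) ^ 2) ?_).trans
      (sum_le_sum_of_subset_of_nonneg ?_ ?_)
    · intro c hc
      rw [mem_sdiff, hL, mem_filter, mem_filter] at hc
      obtain ⟨⟨hc1, hc2⟩, hc3⟩ := hc
      have hc4 : rd (a c) T < e / 4 := by
        by_contra h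
        exact hc3 ⟨hc1, not_lt.1 h⟩
      nlinarith
    · intro c hc
      exact (mem_filter.1 (mem_sdiff.1 hc).1).1
    · intro c _ _
      positivity
  refine le_trans ?_ h7
  calc e ^ 3 * P.parts.card / 128 = e / 8 * P.parts.card * (e / 4) ^ 2 := by ring
    _ ≤ _ := mul_le_mul_of_nonneg_right h6 (by positivity)

open Classical in
theorem typ {n : ℕ} (hn : 0 < n) (P Q : Finpartition (univ : Finset (Fin n)))
    (hP : P.IsEquipartition) (hQ : Q ≤ P) (e η : ℝ) (he : 0 < e) (he1 : e ≤ 1) (hη : 0 ≤ η)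
    (𝓣 : Finset (Finset (Fin n))) (h𝓣 : ∀ T ∈ 𝓣, e * n ≤ T.card) (w : Finset (Fin n) → ℝ)
    (hw : ∀ T, 0 ≤ w T)
    (hE : ∑ T ∈ 𝓣, w T * ∑ c ∈ P.parts, ∑ A ∈ Q.parts.filter (fun A => A ⊆ c),
      (A.card : ℝ) * (rd A T - rd c T) ^ 2 ≤ η * n * ∑ T ∈ 𝓣, w T) :
    ∃ 𝓑 : Finset (Fin n) → Finset (Finset (Fin n)),
      (∀ c ∈ P.parts, 𝓑 c ⊆ Q.parts ∧ (∀ A ∈ 𝓑 c, A ⊆ c) ∧
        3 / 4 * (c.card : ℝ) ≤ ∑ A ∈ 𝓑 c, (A.card : ℝ)) ∧
      ∀ a : Finset (Fin n) → Finset (Fin n), (∀ c ∈ P.parts, a c ∈ 𝓑 c) →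
        ∑ T ∈ 𝓣.filter (fun T => ((P.parts.filter (fun c => e / 4 ≤ rd (a c) T)).card : ℝ) <
          e / 8 * P.parts.card), w T ≤ 1024 * η / e ^ 3 * ∑ T ∈ 𝓣, w T := by
  have hn' : (0 : ℝ) < n := by exact_mod_cast hn
  have hne : P.parts.Nonempty := by
    obtain ⟨A, hA, _⟩ := P.exists_mem (mem_univ (⟨0, hn⟩ : Fin n))
    exact ⟨A, hA⟩
  have hk : (0 : ℝ) < P.parts.card := by exact_mod_cast card_pos.2 hne
  set W := ∑ T ∈ 𝓣, w T with hW
  let Φ : Finset (Fin n) → Finset (Fin n) → ℝ := fun c A =>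
    ∑ T ∈ 𝓣, w T * (rd A T - rd c T) ^ 2
  let E : Finset (Fin n) → ℝ := fun c =>
    ∑ A ∈ Q.parts.filter (fun A => A ⊆ c), (A.card : ℝ) * Φ c A
  have hΦ0 : ∀ c A, 0 ≤ Φ c A := fun c A =>
    sum_nonneg fun T _ => mul_nonneg (hw T) (sq_nonneg _)
  have hEsum : ∑ c ∈ P.parts, E c ≤ η * n * W := by
    refine le_trans (le_of_eq ?_) hE
    simp only [E, Φ, mul_sum]
    rw [sum_comm' (s := 𝓣) (t := fun _ => P.parts) (t' := P.parts) (s' := fun _ => 𝓣)
      (by intro x y; tauto)]
    refine sum_congr rfl fun c _ => ?_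
    rw [sum_comm]
    refine sum_congr rfl fun T _ => ?_
    refine sum_congr rfl fun A _ => ?_
    ring
  refine ⟨fun c => (Q.parts.filter (fun A => A ⊆ c)).filter
    (fun A => Φ c A * (c.card : ℝ) ≤ 4 * E c), ?_, ?_⟩
  · intro c hc
    have hc0 : (0 : ℝ) < c.card := by exact_mod_cast card_pos.2 (P.nonempty_of_mem_parts hc)
    refine ⟨(filter_subset _ _).trans (filter_subset _ _), ?_, ?_⟩
    · intro A hA
      exact (mem_filter.1 (mem_filter.1 hA).1).2
    · exact typ_mk (Q.parts.filter (fun A => A ⊆ c)) (fun A => (A.card : ℝ)) (Φ c) c.card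
        (fun A hA => by
          exact_mod_cast card_pos.2 (Q.nonempty_of_mem_parts (mem_filter.1 hA).1))
        (fun A _ => hΦ0 c A) (typ_sub P Q hQ c hc) hc0
  · intro a ha
    have h1 : ∀ c ∈ P.parts, Φ c (a c) * n ≤ 8 * P.parts.card * E c := by
      intro c hc
      have h2 := (mem_filter.1 (ha c hc)).2
      have h3 : ((n : ℕ) : ℝ) ≤ ((2 * P.parts.card * c.card : ℕ) : ℝ) := by
        exact_mod_cast (typ_size P hP c hc).1
      push_cast at h3
      calc Φ c (a c) * n ≤ Φ c (a c) * (2 * P.parts.card * c.card) :=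
            mul_le_mul_of_nonneg_left h3 (hΦ0 _ _)
        _ = 2 * P.parts.card * (Φ c (a c) * c.card) := by ring
        _ ≤ 2 * P.parts.card * (4 * E c) := mul_le_mul_of_nonneg_left h2 (by positivity)
        _ = 8 * P.parts.card * E c := by ring
    have h2 : ∑ c ∈ P.parts, Φ c (a c) ≤ 8 * η * P.parts.card * W := by
      have h3 : (∑ c ∈ P.parts, Φ c (a c)) * n ≤ 8 * P.parts.card * (η * n * W) := by
        rw [sum_mul]
        refine (sum_le_sum h1).trans ?_
        rw [← mul_sum]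
        exact mul_le_mul_of_nonneg_left hEsum (by positivity)
      have h4 : (∑ c ∈ P.parts, Φ c (a c)) * n ≤ (8 * η * P.parts.card * W) * n := by
        refine h3.trans (le_of_eq ?_)
        ring
      exact le_of_mul_le_mul_right h4 hn'
    have h3 : ∑ c ∈ P.parts, Φ c (a c) =
        ∑ T ∈ 𝓣, w T * ∑ c ∈ P.parts, (rd (a c) T - rd c T) ^ 2 := by
      simp only [Φ, mul_sum]
      rw [sum_comm]
    have h4 : (∑ T ∈ 𝓣.filter (fun T => ((P.parts.filter
        (fun c => e / 4 ≤ rd (a c) T)).card : ℝ) < e / 8 * P.parts.card), w T) *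
        (e ^ 3 * P.parts.card / 128) ≤ 8 * η * P.parts.card * W := by
      refine le_trans ?_ (h3 ▸ h2)
      rw [sum_mul]
      refine (sum_le_sum (g := fun T => w T * ∑ c ∈ P.parts, (rd (a c) T - rd c T) ^ 2) ?_).trans
        (sum_le_sum_of_subset_of_nonneg (filter_subset _ _) ?_)
      · intro T hT
        rw [mem_filter] at hT
        exact mul_le_mul_of_nonneg_left
          (typ_def hn P hP e he T (h𝓣 T hT.1) a hT.2) (hw T)
      · intro T _ _
        exact mul_nonneg (hw T) (sum_nonneg fun _ _ => sq_nonneg _)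
    have he3 : (0 : ℝ) < e ^ 3 := by positivity
    have h5 : (0 : ℝ) < e ^ 3 * P.parts.card / 128 := by positivity
    refine le_of_mul_le_mul_right (h4.trans (le_of_eq ?_)) h5
    field_simp
    ring

end GCR
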