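import Pool.Agent.GCR.Chn
import Pool.Agent.GCR.Eng
import Pool.Agent.GCR.Typ
import Pool.Agent.GCR.Grd
import Pool.Agent.GCP.Tup
import Pool.Agent.GCP.Sel

/-!
# GCR-Hit: in a graph without holes some clique meets almost all of the weight (assembly, helper92)
-/

set_option autoImplicit false

open Finset

namespace GCR

private theorem exists_le_all (s : ℕ → ℝ) (hs : ∀ k, 0 < s k) (M : ℕ) :
    ∃ σ : ℝ, 0 < σ ∧ ∀ k ≤ M, σ ≤ s k := by
  induction M with
  | zero => exact ⟨s 0, hs 0, fun k hk => by rw [Nat.le_zero.1 hk]⟩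
  | succ M ih =>
    obtain ⟨σ, h1, h2⟩ := ih
    refine ⟨min σ (s (M + 1)), lt_min h1 (hs _), fun k hk => ?_⟩
    rcases Nat.lt_or_ge M k with h | h
    · have : k = M + 1 := by omega
      rw [this]; exact min_le_right _ _
    · exact (min_le_left _ _).trans (h2 k h)

private theorem part_ge {n : ℕ} (P : Finpartition (univ : Finset (Fin n)))
    (hP : P.IsEquipartition) (c : Finset (Fin n)) (hc : c ∈ P.parts) :
    (n : ℝ) ≤ 2 * P.parts.card * c.card := by
  have hk : 0 < P.parts.card := Finset.card_pos.2 ⟨c, hc⟩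
  have h1 := hP.average_le_card_part hc
  rw [Finset.card_univ, Fintype.card_fin] at h1
  have h2 : P.parts.card ≤ n := by
    have := P.card_parts_le_card
    rwa [Finset.card_univ, Fintype.card_fin] at this
  have h3 : n < P.parts.card * (n / P.parts.card + 1) := by
    rw [Nat.mul_comm]; exact Nat.lt_mul_of_div_lt (Nat.lt_succ_self _) hk
  have h4 : 1 ≤ n / P.parts.card := (Nat.one_le_div_iff hk).2 h2
  have h5 : n ≤ 2 * P.parts.card * c.card := by
    calc n ≤ P.parts.card * (n / P.parts.card + 1) := h3.le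
      _ ≤ P.parts.card * (2 * c.card) := Nat.mul_le_mul_left _ (by omega)
      _ = 2 * P.parts.card * c.card := by ring
  exact_mod_cast h5

open Classical in
private theorem core {n : ℕ} (hn : 0 < n) (G : SimpleGraph (Fin n)) (e : ℝ) (he : 0 < e) (he1 : e ≤ 1)
    (L m0 : ℕ) (hm0 : (1 - e / 4) ^ m0 ≤ (1 / 2) ^ (L + 4))
    (P Q : Finpartition (univ : Finset (Fin n))) (k : ℕ) (hk : P.parts.card = k) (q : Fin k ≃ P.parts)
    (hl : (m0 : ℝ) ≤ e / 8 * k)
    (𝓑 : Finset (Fin n) → Finset (Finset (Fin n)))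
    (w : Finset (Fin n) → ℝ) (hw : ∀ T, 0 ≤ w T)
    (htyp : ∀ a : Finset (Fin n) → Finset (Fin n), (∀ c ∈ P.parts, a c ∈ 𝓑 c) →
        ∑ T ∈ (univ.filter (fun T : Finset (Fin n) => e * n ≤ T.card)).filter
          (fun T => ((P.parts.filter (fun c => e / 4 ≤ rd (a c) T)).card : ℝ) <
          e / 8 * k), w T ≤ (1 / 2) ^ (L + 2) *
            ∑ T ∈ univ.filter (fun T : Finset (Fin n) => e * n ≤ T.card), w T)
    (h𝓑 : ∀ c ∈ P.parts, 𝓑 c ⊆ Q.parts)
    (ε g : ℝ) (hε : 0 ≤ ε) (hg0 : 0 < g) (hg1 : g ≤ 1)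
    (hεg : (k : ℝ) ^ 2 * ε ≤ (1 / 2) ^ (L + 4) * g ^ (k ^ 2))
    (a' : Fin k → Finset (Fin n))
    (ha' : ∀ i, a' i ∈ 𝓑 (q i).1)
    (hbad : ∀ i j, i < j → ¬ GCP.BadP G ε g (a' i) (a' j)) :
    ∃ Q : Finset (Fin n), (∀ u ∈ Q, ∀ v ∈ Q, u ≠ v → G.Adj u v) ∧
        2 ^ L * ∑ T ∈ univ.filter (fun T : Finset (Fin n) => e * n ≤ T.card ∧ Disjoint Q T), w T ≤
          ∑ T ∈ univ.filter (fun T : Finset (Fin n) => e * n ≤ T.card), w T := by
  set 𝓣 := univ.filter (fun T : Finset (Fin n) => e * n ≤ T.card) with h𝓣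
  set W := ∑ T ∈ 𝓣, w T with hW
  have hW0 : 0 ≤ W := Finset.sum_nonneg fun T _ => hw T
  -- the function on cells
  set a : Finset (Fin n) → Finset (Fin n) :=
    fun c => if h : c ∈ P.parts then a' (q.symm ⟨c, h⟩) else ∅ with ha
  have hac : ∀ c (h : c ∈ P.parts), a c = a' (q.symm ⟨c, h⟩) := by
    intro c h
    rw [ha]; simp only [h, dif_pos]
  have h1 := htyp a (by
    intro c hc
    rw [hac c hc]
    have := ha' (q.symm ⟨c, hc⟩)
    rwa [Equiv.apply_symm_apply] at this)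
  have hne : ∀ i, (a' i).Nonempty := fun i =>
    Q.nonempty_of_mem_parts (h𝓑 _ (q i).2 (ha' i))
  have hθ1 : ((1 : ℝ) / 2) ^ (L + 4) ≤ 1 / 2 := by
    calc ((1 : ℝ) / 2) ^ (L + 4) ≤ (1 / 2) ^ 1 :=
        pow_le_pow_of_le_one (by norm_num) (by norm_num) (by omega)
      _ = 1 / 2 := by norm_num
  have htup := GCP.tup G a' hne ε ((1 / 2) ^ (L + 4)) g hε (by positivity) hθ1 hg0 hg1 hεg
    (fun i j => GCP.dn G (a' i) (a' j)) (by
      intro i j hij
      have := hbad i j hij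
      simp only [GCP.BadP, not_or, not_lt, not_not] at this
      refine ⟨this.2.2, ?_⟩
      unfold GCP.dn
      refine div_le_one_of_le₀ ?_ (by positivity)
      have h2 : GCP.edg G (a' i) (a' j) ≤ (a' i).card * (a' j).card := by
        unfold GCP.edg
        rw [← Finset.card_product]
        exact Finset.card_filter_le _ _
      exact_mod_cast h2) (by
      intro i j hij
      have := hbad i j hij
      simp only [GCP.BadP, not_or, not_lt, not_not] at this
      exact this.2.1)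
  obtain ⟨hK0, hK⟩ := htup
  -- good sets
  set 𝓖 := 𝓣.filter (fun T => ¬ ((P.parts.filter (fun c => e / 4 ≤ rd (a c) T)).card : ℝ) <
          e / 8 * k) with h𝓖
  have hgood : ∀ T ∈ 𝓖, ∏ i, (((a' i \ T).card : ℝ) / ((a' i).card : ℝ)) ≤ (1 / 2) ^ (L + 4) := by
    intro T hT
    rw [h𝓖, Finset.mem_filter, not_lt] at hT
    have h2 := hT.2
    -- the number of good indices
    have h3 : (P.parts.filter (fun c => e / 4 ≤ rd (a c) T)).card =
        (univ.filter (fun i : Fin k => e / 4 ≤ rd (a' i) T)).card := by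
      refine Finset.card_bij' (fun c hc => q.symm ⟨c, (Finset.mem_filter.1 hc).1⟩)
        (fun i _ => (q i).1) ?_ ?_ ?_ ?_
      · intro c hc
        rw [Finset.mem_filter] at hc ⊢
        refine ⟨Finset.mem_univ _, ?_⟩
        have := hc.2
        rwa [hac c hc.1] at this
      · intro i hi
        rw [Finset.mem_filter] at hi ⊢
        refine ⟨(q i).2, ?_⟩
        rw [hac _ (q i).2]
        simpa using hi.2
      · intro c hc
        simp
      · intro i hi
        simp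
    rw [h3] at h2
    have h4 : (m0 : ℝ) ≤ ((univ.filter (fun i : Fin k => e / 4 ≤ rd (a' i) T)).card : ℝ) := hl.trans h2
    have h5 : m0 ≤ (univ.filter (fun i : Fin k => e / 4 ≤ rd (a' i) T)).card := by exact_mod_cast h4
    have h6 : ∀ i, ((a' i \ T).card : ℝ) / ((a' i).card : ℝ) = 1 - rd (a' i) T := by
      intro i
      have hpos : (0 : ℝ) < (a' i).card := by exact_mod_cast (hne i).card_pos
      have h7 : ((a' i \ T).card : ℝ) + ((a' i ∩ T).card : ℝ) = (a' i).card := by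
        exact_mod_cast Finset.card_sdiff_add_card_inter (a' i) T
      unfold rd
      rw [eq_sub_iff_add_eq, ← add_div, h7, div_self hpos.ne']
    have h0 : ∀ i, 0 ≤ ((a' i \ T).card : ℝ) / ((a' i).card : ℝ) := fun i => by positivity
    have h1' : ∀ i, ((a' i \ T).card : ℝ) / ((a' i).card : ℝ) ≤ 1 := by
      intro i
      rw [h6 i]
      have : 0 ≤ rd (a' i) T := by unfold rd; positivity
      linarith
    calc ∏ i, (((a' i \ T).card : ℝ) / ((a' i).card : ℝ))
        ≤ ∏ i, (if e / 4 ≤ rd (a' i) T then (1 - e / 4) else 1) := by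
          refine Finset.prod_le_prod (fun i _ => h0 i) (fun i _ => ?_)
          split_ifs with h
          · rw [h6 i]; linarith
          · exact h1' i
      _ = (1 - e / 4) ^ (univ.filter (fun i : Fin k => e / 4 ≤ rd (a' i) T)).card := by
          rw [Finset.prod_ite, Finset.prod_const, Finset.prod_const_one, mul_one]
      _ ≤ (1 - e / 4) ^ m0 := pow_le_pow_of_le_one (by linarith) (by linarith) h5
      _ ≤ (1 / 2) ^ (L + 4) := hm0
  obtain ⟨_, _, v, hv, hle⟩ := GCP.sel ({()} : Finset Unit) (Finset.singleton_nonempty _)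
    (fun _ => GCP.trans G a') (fun _ _ => Finset.card_pos.1 hK0) 𝓖
    (fun (v : Fin k → Fin n) (T : Finset (Fin n)) => ∀ i, v i ∉ T) ((1 / 2) ^ (L + 2)) (by
      intro T hT
      rw [Finset.sum_singleton, Finset.card_singleton, Nat.cast_one, mul_one,
        div_le_iff₀ (by exact_mod_cast hK0)]
      have h2 := hK T
      have h3 := hgood T hT
      have h4 : 2 * ((∏ i, (((a' i \ T).card : ℝ) / ((a' i).card : ℝ))) + (1 / 2) ^ (L + 4)) ≤
          (1 / 2) ^ (L + 2) := by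
        have h5 : ((1 : ℝ) / 2) ^ (L + 2) = 4 * (1 / 2) ^ (L + 4) := by ring
        rw [h5]; linarith
      refine le_trans (le_of_eq ?_) (h2.trans (mul_le_mul_of_nonneg_right h4 (by positivity)))
      congr!) w (fun T _ => hw T)
  refine ⟨univ.image v, ?_, ?_⟩
  · intro x hx y hy hxy
    obtain ⟨i, -, rfl⟩ := Finset.mem_image.1 hx
    obtain ⟨j, -, rfl⟩ := Finset.mem_image.1 hy
    have hij : i ≠ j := fun h => hxy (by rw [h])
    have hv2 := (Finset.mem_filter.1 hv).2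
    rcases lt_or_gt_of_ne hij with h | h
    · exact hv2 i j h
    · exact (hv2 j i h).symm
  · have hsub : univ.filter (fun T : Finset (Fin n) => e * n ≤ T.card ∧ Disjoint (univ.image v) T) ⊆
        𝓣.filter (fun T => ((P.parts.filter (fun c => e / 4 ≤ rd (a c) T)).card : ℝ) <
          e / 8 * k) ∪ 𝓖.filter (fun T => ∀ i, v i ∉ T) := by
      intro T hT
      rw [Finset.mem_filter] at hT
      have hT𝓣 : T ∈ 𝓣 := by
        rw [h𝓣, Finset.mem_filter]
        exact ⟨Finset.mem_univ _, hT.2.1⟩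
      rw [Finset.mem_union]
      by_cases hc : ((P.parts.filter (fun c => e / 4 ≤ rd (a c) T)).card : ℝ) < e / 8 * k
      · exact Or.inl (Finset.mem_filter.2 ⟨hT𝓣, hc⟩)
      · exact Or.inr (Finset.mem_filter.2 ⟨Finset.mem_filter.2 ⟨hT𝓣, hc⟩, fun i hi =>
          Finset.disjoint_left.1 hT.2.2 (Finset.mem_image_of_mem v (Finset.mem_univ i)) hi⟩)
    have h2 : ∑ T ∈ univ.filter (fun T : Finset (Fin n) => e * n ≤ T.card ∧ Disjoint (univ.image v) T), w T ≤
        (1 / 2) ^ (L + 2) * W + (1 / 2) ^ (L + 2) * W := by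
      refine (Finset.sum_le_sum_of_subset_of_nonneg hsub fun T _ _ => hw T).trans ?_
      have h3 := Finset.sum_union_inter (f := w) (s₁ := 𝓣.filter
        (fun T => ((P.parts.filter (fun c => e / 4 ≤ rd (a c) T)).card : ℝ) < e / 8 * k))
        (s₂ := 𝓖.filter (fun T => ∀ i, v i ∉ T))
      have h4 : 0 ≤ ∑ T ∈ 𝓣.filter
        (fun T => ((P.parts.filter (fun c => e / 4 ≤ rd (a c) T)).card : ℝ) < e / 8 * k) ∩
        𝓖.filter (fun T => ∀ i, v i ∉ T), w T := Finset.sum_nonneg fun T _ => hw T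
      have h5 : ∑ T ∈ 𝓖.filter (fun T => ∀ i, v i ∉ T), w T ≤ (1 / 2) ^ (L + 2) * W := by
        have h6 : ∑ T ∈ 𝓖, w T ≤ W :=
          Finset.sum_le_sum_of_subset_of_nonneg (Finset.filter_subset _ _) fun T _ _ => hw T
        have h7 := mul_le_mul_of_nonneg_left h6 (show (0 : ℝ) ≤ (1 / 2) ^ (L + 2) by positivity)
        refine le_trans (le_of_eq ?_) (hle.trans h7)
        refine Finset.sum_congr ?_ fun _ _ => rfl
        ext T
        simp only [Finset.mem_filter]
      linarith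
    calc 2 ^ L * ∑ T ∈ univ.filter (fun T : Finset (Fin n) => e * n ≤ T.card ∧ Disjoint (univ.image v) T), w T
        ≤ 2 ^ L * ((1 / 2) ^ (L + 2) * W + (1 / 2) ^ (L + 2) * W) :=
          mul_le_mul_of_nonneg_left h2 (by positivity)
      _ = 1 / 2 * W := by
          have h3 : (2 : ℝ) ^ L * (1 / 2) ^ L = 1 := by rw [← mul_pow]; norm_num
          calc (2 : ℝ) ^ L * ((1 / 2) ^ (L + 2) * W + (1 / 2) ^ (L + 2) * W)
              = (2 ^ L * (1 / 2) ^ L) * (1 / 2 * W) := by ring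
            _ = 1 / 2 * W := by rw [h3, one_mul]
      _ ≤ W := by linarith

open Classical in
/-- one clique which meets almost all of the weight of the sets with at least `e n` elements -/
theorem hitR (γ : ℝ → ℝ) (hγ : ∀ σ, 0 < σ → 0 < γ σ) (e : ℝ) (he : 0 < e) (he1 : e ≤ 1) (L : ℕ) :
    ∃ σ0 : ℝ, 0 < σ0 ∧ ∃ n0 : ℕ, ∀ n ≥ n0, ∀ G : SimpleGraph (Fin n), NoHole G γ σ0 →
      ∀ w : Finset (Fin n) → ℝ, (∀ T, 0 ≤ w T) →
      ∃ Q : Finset (Fin n), (∀ u ∈ Q, ∀ v ∈ Q, u ≠ v → G.Adj u v) ∧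
        2 ^ L * ∑ T ∈ univ.filter (fun T : Finset (Fin n) => e * n ≤ T.card ∧ Disjoint Q T), w T ≤
          ∑ T ∈ univ.filter (fun T : Finset (Fin n) => e * n ≤ T.card), w T := by
  obtain ⟨m0, hm0⟩ := exists_pow_lt_of_lt_one (show (0 : ℝ) < (1 / 2) ^ (L + 4) by positivity)
    (show 1 - e / 4 < 1 by linarith)
  obtain ⟨η, hη⟩ : ∃ η : ℝ, η = e ^ 3 * (1 / 2) ^ (L + 2) / 1024 := ⟨_, rfl⟩
  have hη0 : 0 < η := by rw [hη]; positivity
  have hη1 : 1024 * η / e ^ 3 = (1 / 2) ^ (L + 2) := by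
    rw [hη]; field_simp
  -- parameters of the greedy choice
  have hgr := fun k : ℕ => greedy γ hγ k (1 / (4 * (k + 1))) (by positivity)
  choose s ε0 g hs hε0 hg0 hg1 hgr using hgr
  obtain ⟨l, hl⟩ := exists_nat_ge (8 * m0 / e + 1)
  have hl0 : 0 < l := by
    have h1 : (0 : ℝ) < l := lt_of_lt_of_le (by positivity) hl
    exact_mod_cast h1
  have hle : (m0 : ℝ) ≤ e / 8 * l := by
    have h1 : 8 * m0 / e ≤ (l : ℝ) := by linarith
    rw [div_le_iff₀ he] at h1
    linarith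
  obtain ⟨J, hJ⟩ := exists_nat_ge (1 / η)
  have hJ0 : (0 : ℝ) < J := lt_of_lt_of_le (by positivity) hJ
  have hJ0' : 0 < J := by exact_mod_cast hJ0
  obtain ⟨M, hM0, hM⟩ := chain
    (fun k => min (ε0 k) ((1 / 2) ^ (L + 4) * g k ^ (k ^ 2) / ((k : ℝ) ^ 2 + 1)))
    (fun k => lt_min (hε0 k) (div_pos (mul_pos (by positivity) (pow_pos (hg0 k) _)) (by positivity)))
    l hl0 J
  obtain ⟨σ0, hσ0, hσM⟩ := exists_le_all s hs M
  refine ⟨σ0, hσ0, M, fun n hn G hG w hw => ?_⟩
  have hn0 : 0 < n := lt_of_lt_of_le hM0 hn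
  obtain ⟨P, hP1, hP2, hP3, hP4, hP5⟩ := hM n hn G
  obtain ⟨j, hj, hE⟩ := energy hJ0' P hP2 (univ.filter (fun T : Finset (Fin n) => e * n ≤ T.card)) w hw
  have hE' : ∑ T ∈ univ.filter (fun T : Finset (Fin n) => e * n ≤ T.card), w T *
      ∑ c ∈ (P j).parts, ∑ A ∈ (P (j + 1)).parts.filter (fun A => A ⊆ c),
      (A.card : ℝ) * (rd A T - rd c T) ^ 2 ≤
      η * n * ∑ T ∈ univ.filter (fun T : Finset (Fin n) => e * n ≤ T.card), w T := by
    refine hE.trans ?_
    refine mul_le_mul_of_nonneg_right ?_ (Finset.sum_nonneg fun T _ => hw T)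
    rw [div_le_iff₀ hJ0]
    rw [div_le_iff₀ hη0] at hJ
    have : (0 : ℝ) ≤ n := Nat.cast_nonneg _
    nlinarith
  obtain ⟨𝓑, h𝓑1, h𝓑2⟩ := typ hn0 (P j) (P (j + 1)) (hP1 j) (hP2 j) e η he he1 hη0.le _
    (fun T hT => (Finset.mem_filter.1 hT).2) w hw hE'
  rw [hη1] at h𝓑2
  have hkM : (P j).parts.card ≤ M := hP3 j hj.le
  have hl' : (m0 : ℝ) ≤ e / 8 * (P j).parts.card := by
    refine hle.trans (mul_le_mul_of_nonneg_left ?_ (by positivity))
    exact_mod_cast hP4 j
  set k := (P j).parts.card with hk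
  have hGk : NoHole G γ (s k) := fun σ h => hG σ ((hσM k hkM).trans h)
  obtain ⟨ε, hε⟩ : ∃ ε : ℝ, ε = min (ε0 k) ((1 / 2) ^ (L + 4) * g k ^ (k ^ 2) / ((k : ℝ) ^ 2 + 1)) :=
    ⟨_, rfl⟩
  have hεp : 0 < ε := by
    rw [hε]
    exact lt_min (hε0 k) (div_pos (mul_pos (by positivity) (pow_pos (hg0 k) _)) (by positivity))
  have hε1 : ε ≤ ε0 k := by rw [hε]; exact min_le_left _ _
  have hε2 : (k : ℝ) ^ 2 * ε ≤ (1 / 2) ^ (L + 4) * g k ^ (k ^ 2) := by
    have h1 : ε ≤ (1 / 2) ^ (L + 4) * g k ^ (k ^ 2) / ((k : ℝ) ^ 2 + 1) := by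
      rw [hε]; exact min_le_right _ _
    rw [le_div_iff₀ (by positivity)] at h1
    nlinarith
  have hreg : Reg G ε (P (j + 1)) := by
    rw [hε]; exact hP5 j hj
  obtain ⟨a', ha1, ha2⟩ := hgr k n hn0 G hGk ε hεp.le hε1 (P (j + 1)) (hP1 (j + 1)) hreg
    (fun i => 𝓑 ((P j).parts.equivFin.symm i).1)
    (fun i => (h𝓑1 _ ((P j).parts.equivFin.symm i).2).1) (by
      intro i i' hii
      rw [Finset.disjoint_left]
      intro A hA hA'
      have h1 := (h𝓑1 _ ((P j).parts.equivFin.symm i).2).2.1 A hA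
      have h2 := (h𝓑1 _ ((P j).parts.equivFin.symm i').2).2.1 A hA'
      have hAne : A.Nonempty := (P (j + 1)).nonempty_of_mem_parts
        ((h𝓑1 _ ((P j).parts.equivFin.symm i).2).1 hA)
      have hne : ((P j).parts.equivFin.symm i).1 ≠ ((P j).parts.equivFin.symm i').1 := by
        intro h
        exact hii ((P j).parts.equivFin.symm.injective (Subtype.ext h))
      have hd := (P j).disjoint ((P j).parts.equivFin.symm i).2 ((P j).parts.equivFin.symm i').2 hne
      obtain ⟨x, hx⟩ := hAne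
      exact Finset.disjoint_left.1 hd (h1 hx) (h2 hx)) (by
      intro i
      have h1 := (h𝓑1 _ ((P j).parts.equivFin.symm i).2).2.2
      have h2 := part_ge (P j) (hP1 j) _ ((P j).parts.equivFin.symm i).2
      refine le_trans ?_ h1
      have hk0 : (0 : ℝ) < (P j).parts.card := by
        exact_mod_cast Finset.card_pos.2 ⟨_, ((P j).parts.equivFin.symm i).2⟩
      rw [one_div_mul_eq_div, div_le_iff₀ (by positivity)]
      have h3 : (0 : ℝ) ≤ ((((P j).parts.equivFin.symm i).1 : Finset (Fin n)).card : ℝ) := Nat.cast_nonneg _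
      rw [hk]
      nlinarith)
  exact core hn0 G e he he1 L m0 hm0.le (P j) (P (j + 1)) k rfl (P j).parts.equivFin.symm hl' 𝓑 w hw h𝓑2
    (fun c hc => (h𝓑1 c hc).1) ε (g k) hεp.le (hg0 k) (hg1 k) hε2 a' ha1 ha2

end GCR
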