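import Pool.Agent.GCR.Hit
import Pool.Agent.GCP.Pot
import Pool.Agent.GCP.Fix
import Pool.Agent.GCP.Cert
import Pool.Agent.GCP.Deg

/-!
# GCR-One: graphs without holes (assembly, helper92)
-/

set_option autoImplicit false

open Finset

namespace GCR

open GCP in
private lemma One_core {n : ℕ} (G : SimpleGraph (Fin n)) (L : ℕ) (hL : 3 ≤ L) (e : ℝ)
    (hK : ∀ w : Finset (Fin n) → ℝ, (∀ T, 0 ≤ w T) →
      ∃ Q : Finset (Fin n), (∀ u ∈ Q, ∀ v ∈ Q, u ≠ v → G.Adj u v) ∧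
        2 ^ L * ∑ T ∈ univ.filter (fun T : Finset (Fin n) => e * n ≤ T.card ∧ Disjoint Q T), w T ≤
          ∑ T ∈ univ.filter (fun T : Finset (Fin n) => e * n ≤ T.card), w T)
    (t : ℕ) (ht : e * n ≤ t) (ht2 : 2 * t ≤ n) (D : ℕ) (hD : D + 1 ≤ n) (hG : Degen Gᶜ D) :
    MrGC.PR Gᶜ (max (D + 1) (2 * t) + 3 * n / L + t) := by
  classical
  set D1 := max (D + 1) (2 * t) with hD1
  have hD1n : D1 ≤ n := max_le hD ht2
  set d0 := D1 + 3 * n / L with hd0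
  have hdiv : 3 * n / L ≤ n := by
    refine Nat.div_le_of_le_mul ?_
    exact Nat.mul_le_mul_right n hL
  obtain ⟨Q, hQ1, hQ2⟩ := pot (fun Q : Finset (Fin n) => ∀ u ∈ Q, ∀ v ∈ Q, u ≠ v → G.Adj u v)
    (fun T => e * n ≤ T.card) L (by
      intro w hw
      obtain ⟨Q, h1, h2⟩ := hK w hw
      refine ⟨Q, h1, ?_⟩
      convert h2 using 3) d0
  have hhit : ∀ T : Finset (Fin n), t ≤ T.card → D1 ≤ hit Q T := by
    intro T hT
    have h1 : e * n ≤ (T.card : ℝ) := ht.trans (by exact_mod_cast hT)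
    have h2 := hQ2 T h1
    have h3 : (univ.filter (fun j => Disjoint (Q j) T)).card ≤ 3 * n / L := by
      rw [Nat.le_div_iff_mul_le (by omega)]
      calc (univ.filter (fun j => Disjoint (Q j) T)).card * L
          = L * (univ.filter (fun j => Disjoint (Q j) T)).card := Nat.mul_comm _ _
        _ ≤ n + d0 := by convert h2 using 3
        _ ≤ 3 * n := by omega
    have h4 := Finset.card_filter_add_card_filter_not (s := (univ : Finset (Fin d0)))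
      (fun j => Disjoint (Q j) T)
    rw [Finset.card_univ, Fintype.card_fin] at h4
    have h5 : hit Q T = (univ.filter (fun j => ¬ Disjoint (Q j) T)).card := by
      unfold hit
      congr!
    omega
  obtain ⟨k, Q', hk, hQ', hH⟩ := hall Q t D1 (le_max_right _ _) (fun T h1 h2 => h2.trans (hhit T h1))
  have hc := cert Gᶜ Q' (by
    intro j u hu v hv hadj
    rw [SimpleGraph.compl_adj] at hadj
    rcases hQ' j with ⟨i, hi⟩ | ⟨x, hx⟩
    · rw [hi] at hu hv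
      exact hadj.2 (hQ1 i u hu v hv hadj.1)
    · rw [hx, Finset.mem_singleton] at hu hv
      exact hadj.1 (hu.trans hv.symm)) (by
    intro S hS
    obtain ⟨v, hv, hvD⟩ := hG S hS
    refine ⟨v, hv, fun u => hH _ ?_⟩
    exact (Finset.card_insert_le _ _).trans ((Nat.add_le_add_right hvD 1).trans (le_max_left _ _)))
  exact hc.mono (by omega)

theorem one (γ : ℝ → ℝ) (hγ : ∀ σ, 0 < σ → 0 < γ σ) (ε : ℝ) (hε : 0 < ε) :
    ∃ σ0 : ℝ, 0 < σ0 ∧ ∃ n0 : ℕ, ∀ n ≥ n0,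
    ∀ G : SimpleGraph (Fin n), NoHole G γ σ0 → ∀ D : ℕ, D + 1 ≤ n → GCP.Degen Gᶜ D →
    ∃ d : ℕ, MrGC.PR Gᶜ d ∧ (d : ℝ) ≤ D + ε * n := by
  set e : ℝ := min (ε / 16) (1 / 8) with he
  have he0 : 0 < e := lt_min (by positivity) (by norm_num)
  have he1 : e ≤ 1 / 8 := min_le_right _ _
  have he2 : e ≤ ε / 16 := min_le_left _ _
  set L : ℕ := ⌈12 / ε⌉₊ + 3 with hL
  have hL1 : 12 / ε ≤ (L : ℝ) := by
    rw [hL]; push_cast
    have := Nat.le_ceil (12 / ε)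
    linarith
  have hL0 : (0 : ℝ) < L := lt_of_lt_of_le (by positivity) hL1
  obtain ⟨σ0, hσ0, n1, hN⟩ := hitR γ hγ e he0 (he1.trans (by norm_num)) L
  refine ⟨σ0, hσ0, max n1 (max 8 ⌈8 / ε⌉₊), fun n hn G hG D hD hdeg => ?_⟩
  have hn1 : n1 ≤ n := (le_max_left _ _).trans hn
  have hn2 : 8 ≤ n := (le_max_left _ _).trans ((le_max_right _ _).trans hn)
  have hn3 : ⌈8 / ε⌉₊ ≤ n := (le_max_right _ _).trans ((le_max_right _ _).trans hn)
  have hn3' : 8 / ε ≤ (n : ℝ) := (Nat.le_ceil _).trans (by exact_mod_cast hn3)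
  have hn4 : 8 ≤ ε * n := by
    rw [div_le_iff₀ hε] at hn3'
    linarith
  have hn2' : (8 : ℝ) ≤ n := by exact_mod_cast hn2
  have ht1 : e * n ≤ (⌈e * n⌉₊ : ℝ) := Nat.le_ceil _
  have ht2 : (⌈e * n⌉₊ : ℝ) < e * n + 1 := Nat.ceil_lt_add_one (by positivity)
  have ht3 : 2 * ⌈e * n⌉₊ ≤ n := by
    have h1 : (2 : ℝ) * (⌈e * n⌉₊ : ℝ) ≤ n := by
      have : e * n ≤ 1 / 8 * n := mul_le_mul_of_nonneg_right he1 (by positivity)
      linarith
    exact_mod_cast h1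
  refine ⟨_, One_core G L (by omega) e (hN n hn1 G hG) ⌈e * n⌉₊ ht1 ht3 D hD hdeg, ?_⟩
  push_cast
  have h5 : ((3 * n / L : ℕ) : ℝ) ≤ ε / 4 * n := by
    calc ((3 * n / L : ℕ) : ℝ) ≤ ((3 * n : ℕ) : ℝ) / L := Nat.cast_div_le
      _ ≤ ε / 4 * n := by
        rw [div_le_iff₀ hL0]
        push_cast
        rw [div_le_iff₀ hε] at hL1
        nlinarith [mul_le_mul_of_nonneg_right hL1 (show (0 : ℝ) ≤ n by positivity)]
  have h6 : e * n ≤ ε / 16 * n := mul_le_mul_of_nonneg_right he2 (by positivity)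
  have h7 : max ((D : ℝ) + 1) (2 * (⌈e * n⌉₊ : ℝ)) ≤ D + 1 + 2 * (⌈e * n⌉₊ : ℝ) := by
    refine max_le ?_ ?_
    · have : (0 : ℝ) ≤ ⌈e * n⌉₊ := by positivity
      linarith
    · have : (0 : ℝ) ≤ D := by positivity
      linarith
  linarith

/-- THEOREM A: graphs without homogeneous pairs -/
theorem final (γ : ℝ → ℝ) (hγ : ∀ σ, 0 < σ → 0 < γ σ) (ε : ℝ) (hε : 0 < ε) :
    ∃ σ0 : ℝ, 0 < σ0 ∧ ∃ n0 : ℕ, ∀ n ≥ n0,
    ∀ G : SimpleGraph (Fin n), NoHole G γ σ0 → NoHole Gᶜ γ σ0 →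
    ∃ d d' : ℕ, MrGC.PR Gᶜ d ∧ MrGC.PR G d' ∧ (d : ℝ) + d' ≤ (1 + ε) * n := by
  obtain ⟨σ0, hσ0, n0, h⟩ := one γ hγ (ε / 2) (by positivity)
  refine ⟨σ0, hσ0, max n0 1, fun n hn G hG hG' => ?_⟩
  have hn0 : n0 ≤ n := (le_max_left _ _).trans hn
  have hn1 : 0 < n := (le_max_right _ _).trans hn
  obtain ⟨D, D', hDD, hD, hD'⟩ := GCP.degen_sum hn1 G
  obtain ⟨d, hd1, hd2⟩ := h n hn0 G hG D' (by omega) hD'
  obtain ⟨d', hd1', hd2'⟩ := h n hn0 Gᶜ hG' D (by omega) (by rwa [compl_compl])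
  rw [compl_compl] at hd1'
  refine ⟨d, d', hd1, hd1', ?_⟩
  have h1 : (D : ℝ) + D' + 1 ≤ n := by exact_mod_cast hDD
  linarith

end GCR
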