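import Mathlib

/-!
# GCR-Rfn: Szemeredi's regularity lemma, refining a given equipartition (Mathlib only)

The proof is that of Mathlib's `szemeredi_regularity`, started at a refinement with many parts of the given
equipartition, which is found by iterating the increment partition.
-/

set_option autoImplicit false

open Finset

namespace GCR

open SzemerediRegularity Finpartition Function

private theorem increment_le {α : Type*} [Fintype α] [DecidableEq α]
    {P : Finpartition (univ : Finset α)} (hP : P.IsEquipartition) (G : SimpleGraph α)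
    [DecidableRel G.Adj] (ε : ℝ) : increment hP G ε ≤ P := by
  intro A hA
  rw [increment, mem_bind] at hA
  obtain ⟨U, hU, hA⟩ := hA
  exact ⟨U, hU, Finpartition.le _ hA⟩

private theorem card_inc {α : Type*} [Fintype α] [DecidableEq α]
    {P : Finpartition (univ : Finset α)} (hP : P.IsEquipartition) (G : SimpleGraph α)
    [DecidableRel G.Adj] (ε : ℝ) (h0 : 0 < P.parts.card)
    (h1 : stepBound P.parts.card ≤ Fintype.card α) :
    (increment hP G ε).parts.card = stepBound P.parts.card := by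
  rw [increment, card_bind]
  have hm : Fintype.card α / stepBound P.parts.card ≠ 0 :=
    (Nat.div_pos h1 (stepBound_pos h0)).ne'
  have h2 : ∀ A ∈ P.parts.attach, (chunk hP G ε A.2).parts.card = 4 ^ P.parts.card :=
    fun A _ => card_chunk hm
  rw [Finset.sum_congr rfl h2, Finset.sum_const, Finset.card_attach, smul_eq_mul, stepBound]

private theorem refine_many {α : Type*} [Fintype α] [DecidableEq α] (G : SimpleGraph α)
    [DecidableRel G.Adj] (ε : ℝ) {P : Finpartition (univ : Finset α)} (hP : P.IsEquipartition)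
    (m : ℕ) (h0 : 0 < P.parts.card) (hm : P.parts.card ≤ m) (i : ℕ)
    (hi : stepBound^[i] m ≤ Fintype.card α) :
    ∃ Q : Finpartition (univ : Finset α), Q ≤ P ∧ Q.IsEquipartition ∧ i + 1 ≤ Q.parts.card ∧
      Q.parts.card ≤ stepBound^[i] m := by
  induction i with
  | zero => exact ⟨P, le_rfl, hP, h0, hm⟩
  | succ i ih =>
    rw [iterate_succ_apply'] at hi ⊢
    obtain ⟨Q, h1, h2, h3, h4⟩ := ih ((le_stepBound _).trans hi)
    have h5 : stepBound Q.parts.card ≤ stepBound (stepBound^[i] m) := stepBound_mono h4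
    have hcard := card_inc h2 G ε (by omega) (h5.trans hi)
    refine ⟨increment h2 G ε, (increment_le h2 G ε).trans h1, increment_isEquipartition h2 G ε,
      ?_, hcard.le.trans h5⟩
    rw [hcard, stepBound]
    have h6 : 4 ^ 1 ≤ 4 ^ Q.parts.card := Nat.pow_le_pow_right (by norm_num) (by omega)
    calc i + 1 + 1 ≤ Q.parts.card * 4 ^ 1 := by omega
      _ ≤ _ := Nat.mul_le_mul_left _ h6

private theorem rfn_aux {α : Type*} [Fintype α] [DecidableEq α] (G : SimpleGraph α)
    [DecidableRel G.Adj] {ε : ℝ} (hε : 0 < ε) (m : ℕ) {P₀ : Finpartition (univ : Finset α)}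
    (hP₀ : P₀.IsEquipartition) (h0 : 0 < P₀.parts.card) (hm : P₀.parts.card ≤ m)
    (B b : ℕ) (hB : B = stepBound^[initialBound ε 1] m)
    (hb : b = stepBound^[⌊4 / ε ^ 5⌋₊ + 1] B) (hα : b * 16 ^ b ≤ Fintype.card α) :
    ∃ Q : Finpartition (univ : Finset α), Q ≤ P₀ ∧ Q.IsEquipartition ∧ Q.parts.card ≤ b ∧
      Q.IsUniform G ε := by
  have hmono : Monotone fun i => stepBound^[i] B :=
    fun _ _ h => monotone_iterate_of_id_le le_stepBound h B
  have hBb : B ≤ b := by
    rw [hb]
    exact hmono (Nat.zero_le (⌊4 / ε ^ 5⌋₊ + 1))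
  have hbα : b ≤ Fintype.card α := by
    refine le_trans ?_ hα
    exact Nat.le_mul_of_pos_right _ (by positivity)
  set t := initialBound ε 1 with ht
  obtain ⟨dum, hdum0, hdum₁, hdum₂, hdum₃⟩ := refine_many G ε hP₀ m h0 hm t (by
    rw [← hB]
    exact hBb.trans hbα)
  rw [← hB] at hdum₃
  obtain hε₁ | hε₁ := le_total 1 ε
  · exact ⟨dum, hdum0, hdum₁, hdum₃.trans hBb, (dum.isUniform_one G).mono hε₁⟩
  have hne : Nonempty α := by
    rw [← Fintype.card_pos_iff]
    have h1 : 0 < B := by omega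
    omega
  suffices h : ∀ i, ∃ P : Finpartition (univ : Finset α), P ≤ P₀ ∧ P.IsEquipartition ∧
      t ≤ P.parts.card ∧ P.parts.card ≤ stepBound^[i] B ∧
      (P.IsUniform G ε ∨ ε ^ 5 / 4 * i ≤ P.energy G) by
    obtain ⟨P, hP₀, hP₁, hP₂, hP₃, hP₄⟩ := h (⌊4 / ε ^ 5⌋₊ + 1)
    refine ⟨P, hP₀, hP₁, hP₃.trans hb.ge,
      hP₄.resolve_right fun hPenergy => lt_irrefl (1 : ℝ) ?_⟩
    calc
      (1 : ℝ) = ε ^ 5 / ↑4 * (↑4 / ε ^ 5) := by
        rw [mul_comm, div_mul_div_cancel₀ (pow_pos hε 5).ne']; simp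
      _ < ε ^ 5 / 4 * (⌊4 / ε ^ 5⌋₊ + 1) := by gcongr; exact Nat.lt_floor_add_one _
      _ ≤ (P.energy G : ℝ) := by rwa [← Nat.cast_add_one]
      _ ≤ 1 := mod_cast P.energy_le_one G
  intro i
  induction i with
  | zero =>
    refine ⟨dum, hdum0, hdum₁, by omega, hdum₃, Or.inr ?_⟩
    rw [Nat.cast_zero, mul_zero]
    exact mod_cast dum.energy_nonneg G
  | succ i ih =>
  obtain ⟨P, hP₀, hP₁, hP₂, hP₃, hP₄⟩ := ih
  by_cases huniform : P.IsUniform G ε
  · refine ⟨P, hP₀, hP₁, hP₂, ?_, Or.inl huniform⟩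
    rw [iterate_succ_apply']
    exact hP₃.trans (le_stepBound _)
  replace hP₄ := hP₄.resolve_left huniform
  have hεl' : 100 ≤ 4 ^ P.parts.card * ε ^ 5 :=
    (hundred_lt_pow_initialBound_mul hε 1).le.trans
      (mul_le_mul_of_nonneg_right (pow_right_mono₀ (by simp) hP₂) <| by positivity)
  have hi : (i : ℝ) ≤ 4 / ε ^ 5 := by
    have hi : ε ^ 5 / 4 * ↑i ≤ 1 := hP₄.trans (mod_cast P.energy_le_one G)
    rw [div_mul_eq_mul_div, div_le_iff₀ (show (0 : ℝ) < 4 by simp)] at hi
    norm_num at hi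
    rwa [le_div_iff₀' (pow_pos hε _)]
  have hsize : P.parts.card ≤ b := by
    refine hP₃.trans ?_
    rw [hb]
    exact hmono ((Nat.le_floor hi).trans (Nat.le_succ _))
  have hPα : P.parts.card * 16 ^ P.parts.card ≤ Fintype.card α :=
    (Nat.mul_le_mul hsize (Nat.pow_le_pow_right (by simp) hsize)).trans hα
  refine ⟨increment hP₁ G ε, (increment_le hP₁ G ε).trans hP₀, increment_isEquipartition hP₁ G ε,
    ?_, ?_, Or.inr <| le_trans ?_ <|
    energy_increment hP₁ ((seven_le_initialBound ε 1).trans hP₂) hεl' hPα huniform hε.le hε₁⟩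
  · rw [card_increment hPα huniform]
    exact hP₂.trans (le_stepBound _)
  · rw [card_increment hPα huniform, iterate_succ_apply']
    exact stepBound_mono hP₃
  · rw [Nat.cast_succ, mul_add, mul_one]
    gcongr

open Classical in
theorem rfn (ε : ℝ) (hε : 0 < ε) (m : ℕ) : ∃ M : ℕ, 0 < M ∧ ∀ n ≥ M, ∀ (G : SimpleGraph (Fin n))
    (P : Finpartition (univ : Finset (Fin n))), P.IsEquipartition → P.parts.card ≤ m →
    ∃ Q : Finpartition (univ : Finset (Fin n)), Q ≤ P ∧ Q.IsEquipartition ∧ Q.parts.card ≤ M ∧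
      Q.IsUniform G ε := by
  set B := stepBound^[initialBound ε 1] m with hB
  set b := stepBound^[⌊4 / ε ^ 5⌋₊ + 1] B with hb
  refine ⟨b * 16 ^ b + 1, Nat.succ_pos _, fun n hn G P hP hPm => ?_⟩
  have hn0 : 0 < n := by omega
  have h0 : 0 < P.parts.card := by
    rw [Finset.card_pos]
    apply P.parts_nonempty
    have : Nonempty (Fin n) := ⟨⟨0, hn0⟩⟩
    exact Finset.univ_nonempty.ne_empty
  obtain ⟨Q, h1, h2, h3, h4⟩ := rfn_aux G hε m hP h0 hPm B b hB hb (by
    rw [Fintype.card_fin]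
    omega)
  refine ⟨Q, h1, h2, h3.trans ?_, h4⟩
  exact (Nat.le_mul_of_pos_right _ (by positivity)).trans (Nat.le_succ _)

end GCR
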